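import Pool.Agent.P.MP_d1c5a4_lc.Defs

/-! Reductions between weighted satisfiability problems that are defined in a logic with counting
and rank quantifiers on circuits without an order on the nodes. -/

namespace Pool.Agent.P.MP_d1c5a4_lc.Sym

/-- An instance: a circuit on a finite set `U` of nodes (with no order on `U`), its output node
`o` and the parameter `k`. -/
structure Inst where
  U : Type
  fin : Finite U
  C : Cir U
  o : U
  k : ℕ

/-- The six atomic facts about two nodes. -/
def Inst.rel (A : Inst) (e : Fin 6) (u v : A.U) : Prop :=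
  ![A.C.inp u, A.C.neg u, A.C.dis u, u = A.o, A.C.ch u v, u = v] e

/-- The circuit (of depth at most `h`) has a satisfying assignment with exactly `k` true inputs. -/
def Inst.sat (A : Inst) (h : ℕ) : Prop :=
  ∃ V : Finset A.U, V.card = A.k ∧ (∀ u ∈ V, A.C.inp u) ∧ A.C.val V h A.o

/-- Alternating weighted satisfiability with `l` blocks; the input `u` lies in the block `lev u`.
`A.alt lev h l true ∅` says: there is a set of `k` inputs in the block `l - 1` such that for every
set of `k` inputs in the block `l - 2` there is ... such that the union of the sets satisfies the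
circuit. -/
def Inst.alt (A : Inst) (lev : A.U → ℕ) (h l : ℕ) : Bool → Set A.U → Prop :=
  Nat.rec (fun _ V => A.C.val V h A.o) (fun m P b V => if b = true then
    ∃ S : Finset A.U, (S.card = A.k ∧ ∀ u ∈ S, A.C.inp u ∧ lev u = m) ∧ P false (V ∪ S) else
    ∀ S : Finset A.U, (S.card = A.k ∧ ∀ u ∈ S, A.C.inp u ∧ lev u = m) → P true (V ∪ S)) l

/-- Formulas of first-order logic with counting quantifiers and with rank quantifiers over the
fields with `q` elements, `q ∈ Q`; the variables are in `X`. -/
inductive Fm (Q : Set Nat.Primes) (X : Type) : Type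
  | atom (e : Fin 6) (x y : X) : Fm Q X
  | not (φ : Fm Q X) : Fm Q X
  | and (φ ψ : Fm Q X) : Fm Q X
  | cnt (m : ℕ) (x : X) (φ : Fm Q X) : Fm Q X
  | rk (q : Q) (m N : ℕ) (s : X → Fin 3) (φ : Fin N → Fin N → Fin N → Fm Q X) : Fm Q X

/-- Truth of a formula under an assignment `a`. `cnt m x φ` says that at least `m` values of `x`
satisfy `φ`. `rk q m N s φ` says that a matrix over the field with `q` elements has `m` linearly
independent rows: rows and columns are pairs of an assignment and a number below `N`; the entry at
`(u, i), (v, j)` is the number of `e` such that `φ i j e` holds when the variable `x` takes its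
value from `a`, `u` or `v`, as `s x` is `0`, `1` or `2`. -/
def Fm.holds {Q : Set Nat.Primes} {X : Type} [DecidableEq X] (A : Inst) (φ : Fm Q X) :
    (X → A.U) → Prop :=
  Fm.rec (fun e x y a => A.rel e (a x) (a y)) (fun _ P a => ¬ P a) (fun _ _ P P' a => P a ∧ P' a)
    (fun m x _ P a => m ≤ {u | P (Function.update a x u)}.ncard)
    (fun q m N s _ P a => ∃ ρ : Fin m → (X → A.U) × Fin N, LinearIndependent (ZMod q.1)
      fun i (v : (X → A.U) × Fin N) =>
        ({e | P (ρ i).2 v.2 e fun x => ![a, (ρ i).1, v.1] (s x) x}.ncard : ZMod q.1)) φ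

/-- The slice `k` of weighted satisfiability for weft `t` and depth `h` reduces to alternating
weighted satisfiability with `l` blocks for weft `t'` and depth `h'` by interpretations of
dimension `r` in this logic with `2 r` variables. The nodes of the new circuit are classes of
pairs of an `r`-tuple of old nodes and a number below `n ^ c`; the formulas may depend on the
number `n` of old nodes. -/
def Red (Q : Set Nat.Primes) (r k t h l t' h' : ℕ) : Prop :=
  ∃ c : ℕ, ∀ n ≥ c, ∃ (φ : Fin 6 → ℕ → ℕ → Fm Q (Bool × Fin r))
    (χ : ℕ → ℕ → Fm Q (Bool × Fin r)) (ψ : ℕ → Fm Q (Bool × Fin r)),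
    ∀ A : Inst, A.k = k → Nat.card A.U = n → A.C.ok h t A.o →
      ∃ (D : Inst) (lev : D.U → ℕ) (π : (Fin r → A.U) × Fin (n ^ c) → D.U),
        Function.Surjective π ∧ D.k ≤ c ∧ D.C.ok h' t' D.o ∧
        (A.sat h ↔ D.alt lev h' l true ∅) ∧ ∀ a : Bool × Fin r → A.U,
          (∀ (e : Fin 6) (i j : Fin (n ^ c)), (φ e i j).holds A a ↔
            D.rel e (π (fun s => a (false, s), i)) (π (fun s => a (true, s), j))) ∧
          (∀ (m : ℕ) (i : Fin (n ^ c)), (χ m i).holds A a ↔
            lev (π (fun s => a (false, s), i)) = m) ∧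
          ∀ m, (ψ m).holds A a ↔ D.k = m

end Pool.Agent.P.MP_d1c5a4_lc.Sym
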