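import Mathlib

/-! Matrices that are invariant under a commutative group of order prime to the characteristic and
differ by a twist that is locally trivial have the same rank. -/

namespace Pool.Agent.P.MP_d1c5a4_lc.Sym

open Finset Classical Matrix

theorem ex_rows_iff {K J : Type} [Field K] [Fintype J] (M : Matrix J J K) (m : ℕ) :
    (∃ ρ : Fin m → J, LinearIndependent K fun i => M (ρ i)) ↔ m ≤ M.rank := by
  rw [Matrix.rank_eq_finrank_span_row]
  refine ⟨fun ⟨ρ, h⟩ => ?_, fun h => ?_⟩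
  · have := finrank_span_eq_card h
    rw [Fintype.card_fin] at this
    rw [← this]
    exact Submodule.finrank_mono (Submodule.span_mono (Set.range_comp_subset_range ρ M.row))
  · obtain ⟨κ, a, h1, h2, h3⟩ := exists_linearIndependent' K M.row
    have : Fintype κ := Fintype.ofInjective a h1
    rw [← h2, finrank_span_eq_card h3] at h
    obtain ⟨e⟩ := Function.Embedding.nonempty_of_card_le ((Fintype.card_fin m).trans_le h)
    exact ⟨a ∘ e, h3.comp e e.injective⟩

theorem rank_le {K G J S : Type} [Field K] [CommGroup G] [Finite G]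
    [HasEnoughRootsOfUnity K (Monoid.exponent G)] (hG : (Nat.card G : K) ≠ 0) [Fintype J]
    [MulAction G J] (s : J → S) (hs : ∀ (g : G) u, s (g • u) = s u) (M M' : Matrix J J K)
    (hM : ∀ (g : G) u v, M (g • u) (g • v) = M u v) (R : S → S → G → Prop)
    (h1 : ∀ u v d, R (s u) (s v) d → M' u v = M u (d • v))
    (h2 : ∀ u v w, ∃ a b c, R (s u) (s v) (b / a) ∧ R (s v) (s w) (c / b) ∧ R (s u) (s w) (c / a))
    (h3 : ∀ u v d d', R (s u) (s v) d → R (s u) (s v) d' → ∃ a b : G,
      (∀ y, s y = s u → a • y = y) ∧ (∀ y, s y = s v → b • y = y) ∧ d' = d * a * b) :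
    M'.rank ≤ M.rank := by
  have := Fintype.ofFinite G
  have hc := CommGroup.card_monoidHom_of_hasEnoughRootsOfUnity G K
  have : Finite (G →* Kˣ) := Nat.finite_of_card_ne_zero (hc ▸ Nat.card_pos.ne')
  have := Fintype.ofFinite (G →* Kˣ)
  obtain ⟨δ, hδ⟩ : ∃ δ : S → S → G, ∀ u v, R (s u) (s v) (δ (s u) (s v)) :=
    ⟨fun t t' => Classical.epsilon (R t t'), fun u v =>
      let ⟨_, _, _, h, _⟩ := h2 u v v; Classical.epsilon_spec ⟨_, h⟩⟩
  let good : (G →* Kˣ) → S → Prop := fun χ t => ∀ g : G, (∀ y, s y = t → g • y = y) → χ g = 1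
  let isV : (G →* Kˣ) → (J → K) → Prop := fun χ φ => ∀ (g : G) u, φ (g • u) = χ g * φ u
  have z0 : ∀ χ φ u, isV χ φ → ¬ good χ (s u) → φ u = 0 := fun χ φ u a b => by
    obtain ⟨g, b⟩ := not_forall.1 b
    obtain ⟨b1, b2⟩ := Classical.not_imp.1 b
    have := a g u
    rw [b1 u rfl] at this
    by_contra h
    exact b2 (Units.val_eq_one.1 ((mul_eq_right₀ h).1 this.symm))
  have wd : ∀ χ u v d, good χ (s u) → good χ (s v) → R (s u) (s v) d →
      χ (δ (s u) (s v)) = χ d := fun χ u v d a b c => by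
    obtain ⟨x, y, e1, e2, e3⟩ := h3 u v d _ c (hδ u v)
    rw [e3, map_mul, map_mul, a x e1, b y e2, mul_one, mul_one]
  have ha : ∀ χ, ∃ a : S → Kˣ, ∀ u v, good χ (s u) → good χ (s v) →
      χ (δ (s u) (s v)) * a (s v) = a (s u) := fun χ => by
    by_cases h : ∃ w, good χ (s w)
    · obtain ⟨w, hw⟩ := h
      refine ⟨fun t => χ (δ t (s w)), fun u v a b => ?_⟩
      obtain ⟨x, y, z, e1, e2, e3⟩ := h2 u v w
      beta_reduce
      rw [wd χ u v _ a b e1, wd χ v w _ b hw e2, wd χ u w _ a hw e3, ← map_mul, div_mul_div_cancel']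
    · exact ⟨fun _ => 1, fun u v a _ => absurd ⟨u, a⟩ h⟩
  choose a ha using ha
  have l4 : ∀ (N : Matrix J J K), (∀ (g : G) u v, N (g • u) (g • v) = N u v) → ∀ χ φ, isV χ φ →
      isV χ (N *ᵥ φ) := fun N hN χ φ h g u => by
    simp only [mulVec, dotProduct, mul_sum]
    rw [← Equiv.sum_comp (MulAction.toPerm g)]
    exact sum_congr rfl fun v _ => by rw [MulAction.toPerm_apply, hN, h g v]; ring
  have hM' : ∀ (g : G) u v, M' (g • u) (g • v) = M' u v := fun g u v => by
    rw [h1 _ _ _ (hδ _ _), h1 _ _ _ (hδ u v), hs, hs, smul_comm, hM]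
  have l6 : ∀ χ φ, isV χ φ → isV χ fun v => a χ (s v) * φ v := fun χ φ h g u => by
    simp only [hs, h g u]
    ring
  have l5 : ∀ χ φ, isV χ φ → ∀ u, (M' *ᵥ φ) u =
      ((a χ (s u))⁻¹ : Kˣ) * (M *ᵥ fun v => a χ (s v) * φ v) u := fun χ φ h u => by
    by_cases hu : good χ (s u)
    · have hb : Function.Bijective fun v => δ (s u) (s v) • v :=
        Finite.injective_iff_bijective.1 fun v v' e => by
          have e' : s v = s v' := by simpa only [hs] using congrArg s e
          simp only [e'] at e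
          exact MulAction.injective _ e
      simp only [mulVec, dotProduct, mul_sum]
      rw [← hb.sum_comp fun v => ((a χ (s u))⁻¹ : Kˣ) * (M u v * (a χ (s v) * φ v))]
      refine sum_congr rfl fun v _ => ?_
      rw [h1 _ _ _ (hδ u v), hs, h _ v]
      by_cases hv : good χ (s v)
      · rw [← ha χ u v hu hv]
        simp only [_root_.mul_inv_rev, Units.val_mul, Units.val_inv_eq_inv_val]
        field_simp
      · simp [z0 χ φ v h hv]
    · rw [z0 χ _ u (l4 M' hM' χ φ h) hu, z0 χ _ u (l4 M hM χ _ (l6 χ φ h)) hu, mul_zero]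
  let E : (G →* Kˣ) → (J → K) → J → K := fun χ φ u => ∑ g : G, ((χ g)⁻¹ : Kˣ) * φ (g • u)
  have l1 : ∀ χ φ, isV χ (E χ φ) := fun χ φ g u => by
    simp only [E, mul_sum]
    rw [← Equiv.sum_comp (Equiv.mulRight g) fun x : G => (χ g : K) * (((χ x)⁻¹ : Kˣ) * φ (x • u))]
    refine sum_congr rfl fun x _ => ?_
    simp only [Equiv.coe_mulRight, map_mul, mul_smul, _root_.mul_inv_rev, Units.val_mul,
      Units.val_inv_eq_inv_val]
    field_simp
  have l2 : ∀ φ, ∑ χ, E χ φ = (Nat.card G : K) • φ := fun φ => by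
    ext u
    simp only [E, Finset.sum_apply, Pi.smul_apply, smul_eq_mul]
    rw [sum_comm, sum_eq_single 1 (fun g _ hg => ?_) (by simp)]
    · rw [← hc]
      simp
    · obtain ⟨χ, hχ⟩ := CommGroup.exists_apply_ne_one_of_hasEnoughRootsOfUnity G K hg
      have := sum_hom_units_eq_zero ((Units.coeHom K).comp
        (invMonoidHom.comp (MonoidHom.eval g : (G →* Kˣ) →* Kˣ))) fun h => hχ (by
          simpa using DFunLike.congr_fun h χ)
      rw [← sum_mul]
      exact mul_eq_zero_of_left this _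
  have l3 : ∀ χ χ' w, isV χ w → ∀ u, E χ' w u = if χ' = χ then Nat.card G * w u else 0 :=
    fun χ χ' w h u => by
      simp only [E, h _ u, ← mul_assoc, ← sum_mul]
      split_ifs with e
      · simp [e]
      · have := sum_hom_units_eq_zero ((Units.coeHom K).comp (χ'⁻¹ * χ)) fun h => e (by
          ext g
          have := DFunLike.congr_fun h g
          simp only [MonoidHom.comp_apply, MonoidHom.mul_apply, MonoidHom.inv_apply,
            Units.coeHom_apply, MonoidHom.one_apply, Units.val_eq_one, inv_mul_eq_one] at this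
          rw [this])
        exact mul_eq_zero_of_left (by simpa using this) _
  let A : (J → K) →ₗ[K] J → K := LinearMap.pi fun u => ∑ χ : G →* Kˣ, ∑ g : G,
    (((a χ (s u))⁻¹ : Kˣ) * ((χ g)⁻¹ : Kˣ) : K) • LinearMap.proj (g • u)
  have hA : ∀ w u, A w u = ∑ χ, ((a χ (s u))⁻¹ : Kˣ) * E χ w u := fun w u => by
    simp [A, E, mul_sum, mul_assoc]
  refine le_trans (Submodule.finrank_mono ?_) (Submodule.finrank_map_le A _)
  rintro _ ⟨φ, rfl⟩
  have e : φ = (Nat.card G : K)⁻¹ • ∑ χ, E χ φ := by rw [l2, smul_smul, inv_mul_cancel₀ hG, one_smul]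
  rw [e, map_smul, map_sum]
  refine Submodule.smul_mem _ _ (Submodule.sum_mem _ fun χ _ => ?_)
  refine ⟨(Nat.card G : K)⁻¹ • (M *ᵥ fun v => a χ (s v) * E χ φ v),
    Submodule.smul_mem _ _ ⟨_, rfl⟩, ?_⟩
  ext u
  rw [map_smul, Pi.smul_apply, hA, mulVecLin_apply, l5 χ _ (l1 χ φ)]
  have e' := fun χ' => l3 χ χ' _ (l4 M hM χ (fun v => a χ (s v) * E χ φ v)
    (l6 χ _ (l1 χ φ))) u
  simp only [e', mul_ite, mul_zero, sum_ite_eq', mem_univ, if_true, smul_eq_mul]
  field_simp

end Pool.Agent.P.MP_d1c5a4_lc.Sym
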