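import Pool.Agent.P.MP_d1c5a4_lc.Sym.Rep
import Pool.Agent.P.MP_d1c5a4_lc.Sym.Rank
import Pool.Agent.P.MP_d1c5a4_lc.Src

/-! The hard instances, their shifts, and the bijective pebble game. -/

namespace Pool.Agent.P.MP_d1c5a4_lc.Sym

open Finset Classical

variable {F I A : Type} [Field F] {j k : ℕ}

/-- The columns. -/
abbrev Col (j : ℕ) (I A : Type) (k : ℕ) : Type := Option ((Fin j → I) × A) × Fin k × Bool

/-- The nodes of the hard instances. -/
abbrev No (F : Type) (j : ℕ) (I A : Type) (k : ℕ) : Type :=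
  Nd j I A ((Fin k × Bool) × (Fin k → F)) (Fin k × (Fin k → F))

/-- The shifts. -/
abbrev Sf (F : Type) (j : ℕ) (I A : Type) (k : ℕ) : Type :=
  (Fin k → Fin k → F) × (Col j I A k → Fin k → F)

/-- Evaluation of a polynomial given by its coefficients. -/
def ev (y : F) (x : Fin k → F) : F := ∑ l, x l * y ^ (l : ℕ)

theorem ev_add (y : F) (x x' : Fin k → F) : ev y (x + x') = ev y x + ev y x' := by
  simp [ev, add_mul, sum_add_distrib]

theorem ev_sub (y : F) (x x' : Fin k → F) : ev y (x - x') = ev y x - ev y x' := by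
  simp [ev, sub_mul, sum_sub_distrib]

theorem ev_zero (y : F) : ev y (0 : Fin k → F) = 0 := by simp [ev]

theorem ev_sum (y : F) (x : Fin k → Fin k → F) : ev y (∑ i, x i) = ∑ i, ev y (x i) := by
  simp only [ev, Finset.sum_apply, sum_mul]
  exact sum_comm

theorem interp {γ : Type} {pt : γ → F} (hpt : Function.Injective pt) (T : Finset γ)
    (hT : T.card ≤ k) (w : γ → F) : ∃ x : Fin k → F, ∀ c ∈ T, ev (pt c) x = w c := by
  have h : Lagrange.interpolate T pt w ∈ Polynomial.degreeLT F k := Polynomial.mem_degreeLT.2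
    ((Lagrange.degree_interpolate_lt w hpt.injOn).trans_le (by exact_mod_cast hT))
  exact ⟨Polynomial.degreeLTEquiv F k ⟨_, h⟩, fun c hc =>
    (Polynomial.eval_eq_sum_degreeLTEquiv h _).symm.trans
      (Lagrange.eval_interpolate_at_node w hpt.injOn hc)⟩

/-- The right-hand side of the equation of a column. -/
noncomputable def bt (z : (Fin j → I) × A → Bool) (c : Col j I A k) : F :=
  c.1.elim 0 fun g => if z g = true then 0 else 1

variable (pt : Col j I A k → F)

/-- The wires from the inputs to the clauses. -/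
noncomputable def mt (z : (Fin j → I) × A → Bool)
    (q : (Fin k × (Fin k → F)) × Cl j I A ((Fin k × Bool) × (Fin k → F))) : Bool :=
  decide (if q.2.1 = none ∧ q.2.2.1.2 = true then q.1.1 = q.2.2.1.1 else
    ∑ l, q.2.2.2 l = bt z (q.2.1, q.2.2.1) ∨ ev (pt (q.2.1, q.2.2.1)) q.1.2 ≠ q.2.2.2 q.1.1)

/-- The action of the shifts on the nodes. -/
def act (σ : Sf F j I A k) : No F j I A k → No F j I A k
  | .inl x => .inl (x.1, σ.1 x.1 + x.2)
  | .inr (.inl c) => .inr (.inl (c.1, c.2.1, σ.2 (c.1, c.2.1) + c.2.2))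
  | .inr (.inr q) => .inr (.inr q)

theorem act_zero (u : No F j I A k) : act 0 u = u := by
  rcases u with _ | _ | _ <;> simp [act]

theorem act_add (σ σ' : Sf F j I A k) (u : No F j I A k) :
    act (σ + σ') u = act σ (act σ' u) := by
  rcases u with _ | _ | _ <;> simp [act, add_assoc]

theorem act_bij (σ : Sf F j I A k) : Function.Bijective (act σ) :=
  Function.bijective_iff_has_inverse.2 ⟨act (-σ), fun u => by rw [← act_add, neg_add_cancel, act_zero],
    fun u => by rw [← act_add, add_neg_cancel, act_zero]⟩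

/-- The block or the column of a node. -/
def sh : No F j I A k → Finset (Fin k ⊕ Col j I A k)
  | .inl x => {.inl x.1}
  | .inr (.inl c) => {.inr (c.1, c.2.1)}
  | .inr (.inr _) => ∅

omit [Field F] in
theorem card_sh (u : No F j I A k) : (sh u).card ≤ 1 := by
  rcases u with _ | _ | _ <;> simp [sh]

theorem sh_act (σ : Sf F j I A k) (u : No F j I A k) : sh (act σ u) = sh u := by
  rcases u with _ | _ | _ <;> rfl

/-- The shift is a partial isomorphism on the nodes with shape in `P`. -/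
def Good (σ : Sf F j I A k) (P : Finset (Fin k ⊕ Col j I A k)) (z z' : (Fin j → I) × A → Bool) :
    Prop :=
  ∀ c, .inr c ∈ P → ∑ l, σ.2 c l = bt z' c - bt z c ∧
    ∀ i, .inl i ∈ P → σ.2 c i = ev (pt c) (σ.1 i)

variable {pt} {σ : Sf F j I A k} {P : Finset (Fin k ⊕ Col j I A k)}
  {z z' : (Fin j → I) × A → Bool}

theorem Good.mono {P' : Finset (Fin k ⊕ Col j I A k)} (h : P ⊆ P') (hg : Good pt σ P' z z') :
    Good pt σ P z z' :=
  fun c hc => ⟨(hg c (h hc)).1, fun i a => (hg c (h hc)).2 i (h a)⟩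

theorem Good.ext (hpt : Function.Injective pt) (h : Good pt σ P z z') (hP : P.card ≤ k)
    (i₀ : Fin k) : ∃ σ' : Sf F j I A k,
      (∀ u, sh u ⊆ P → act σ' u = act σ u) ∧ ∀ c, ∑ l, σ'.2 c l = bt z' c - bt z c ∧
        ∀ i, (.inr c ∈ P ∨ i ≠ i₀) → σ'.2 c i = ev (pt c) (σ'.1 i) := by
  have h1 : ∀ i, ∃ x : Fin k → F, (.inl i ∈ P → x = σ.1 i) ∧
      ∀ c, .inr c ∈ P → σ.2 c i = ev (pt c) x := fun i => by
    by_cases hi : .inl i ∈ P
    · exact ⟨σ.1 i, fun _ => rfl, fun c hc => (h c hc).2 i hi⟩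
    · obtain ⟨x, hx⟩ := interp hpt P.toRight (card_toRight_le.trans hP) fun c => σ.2 c i
      exact ⟨x, fun a => absurd a hi, fun c hc => (hx c (mem_toRight.2 hc)).symm⟩
  choose τ t1 t2 using h1
  refine ⟨(τ, fun c => if .inr c ∈ P then σ.2 c else Function.update (fun i => ev (pt c) (τ i)) i₀
    (bt z' c - bt z c - ∑ i ∈ univ \ {i₀}, ev (pt c) (τ i))), ?_, fun c => ?_⟩
  · rintro (x | c | q) hu
    · simp [act, t1 _ (singleton_subset_iff.1 hu)]
    · simp [act, singleton_subset_iff.1 hu]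
    · rfl
  · by_cases hc : .inr c ∈ P
    · simp only [hc, if_true]
      exact ⟨(h c hc).1, fun i _ => t2 i c hc⟩
    · simp only [hc, if_false, false_or]
      exact ⟨by rw [sum_update_of_mem (mem_univ _), sub_add_cancel],
        fun i hi => Function.update_of_ne hi _ _⟩

theorem ex_free {P : Finset (Fin k ⊕ Col j I A k)} (h : P.card < k) : ∃ i, .inl i ∉ P := by
  obtain ⟨i, -, hi⟩ := exists_mem_notMem_of_card_lt_card (s := P.toLeft) (t := univ)
    (by simpa using card_toLeft_le.trans_lt h)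
  exact ⟨i, fun a => hi (mem_toLeft.2 a)⟩

theorem Good.ext' (hpt : Function.Injective pt) (h : Good pt σ P z z')
    {P' : Finset (Fin k ⊕ Col j I A k)} (hP : P ⊆ P') (hM : P'.card < k) :
    ∃ σ' : Sf F j I A k, (∀ u, sh u ⊆ P → act σ' u = act σ u) ∧ Good pt σ' P' z z' := by
  obtain ⟨i₀, hi⟩ := ex_free hM
  obtain ⟨σ', a1, a2⟩ := h.ext hpt ((card_le_card hP).trans hM.le) i₀
  exact ⟨σ', a1, fun c _ => ⟨(a2 c).1, fun i hi' => (a2 c).2 i (Or.inr fun e => hi (e ▸ hi'))⟩⟩

theorem Good.sub {σ' : Sf F j I A k} (h : Good pt σ P z z') (h' : Good pt σ' P z z')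
    (y : (Fin j → I) × A → Bool) : Good pt (σ - σ') P y y := fun c hc =>
  ⟨by simp [sum_sub_distrib, (h c hc).1, (h' c hc).1],
    fun i hi => by simp [ev_sub, (h c hc).2 i hi, (h' c hc).2 i hi]⟩

theorem Good.neg (h : Good pt σ P z z') : Good pt (-σ) P z' z := fun c hc =>
  ⟨by simp [(h c hc).1], fun i hi => by
    have := ev_sub (pt c) 0 (σ.1 i)
    rw [zero_sub, ev_zero, zero_sub] at this
    simp [this, (h c hc).2 i hi]⟩

/-- The shifts that fix the nodes with shape in `P`. -/
def van (P : Finset (Fin k ⊕ Col j I A k)) : AddSubgroup (Sf F j I A k) where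
  carrier := {σ | ∀ u, sh u ⊆ P → act σ u = u}
  zero_mem' u _ := act_zero u
  add_mem' := fun a b u hu => by rw [act_add, b u hu, a u hu]
  neg_mem' := fun {σ} a u hu => by
    conv_lhs => rw [← a u hu, ← act_add, neg_add_cancel, act_zero]

theorem van_iff {σ' : Sf F j I A k} : σ - σ' ∈ van P ↔ ∀ u, sh u ⊆ P → act σ u = act σ' u := by
  refine forall₂_congr fun u _ => ?_
  rw [← (act_bij σ').1.eq_iff, ← act_add, add_sub_cancel]

theorem van_mono {P' : Finset (Fin k ⊕ Col j I A k)} (h : P ⊆ P') (a : σ ∈ van P') : σ ∈ van P :=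
  fun u hu => a u (hu.trans h)

variable (pt) in
/-- The shifts that are automorphisms. -/
def aut : AddSubgroup (Sf F j I A k) where
  carrier := {σ | ∀ c, ∑ l, σ.2 c l = 0 ∧ ∀ i, σ.2 c i = ev (pt c) (σ.1 i)}
  zero_mem' c := by simp [ev_zero]
  add_mem' := fun a b c => ⟨by simp [sum_add_distrib, (a c).1, (b c).1],
    fun i => by simp [ev_add, (a c).2, (b c).2]⟩
  neg_mem' := fun {σ} a c => ⟨by simp [(a c).1], fun i => by
    have := ev_sub (pt c) 0 (σ.1 i)
    rw [zero_sub, ev_zero, zero_sub] at this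
    simp [this, (a c).2 i]⟩

theorem Good.hom (hpt : Function.Injective pt) (h : Good pt σ P z z) (hP : P.card < k) :
    ∃ γ ∈ aut pt, γ - σ ∈ van P := by
  obtain ⟨i₀, hi⟩ := ex_free hP
  obtain ⟨σ', a1, a2⟩ := h.ext hpt hP.le i₀
  refine ⟨(Function.update σ'.1 i₀ (-∑ i ∈ univ \ {i₀}, σ'.1 i), σ'.2), fun c =>
    ⟨(a2 c).1.trans (sub_self _), fun i => ?_⟩, van_iff.2 fun u hu => Eq.trans ?_ (a1 u hu)⟩
  · by_cases e : i = i₀
    · have b1 := (a2 c).1
      rw [sub_self, ← sum_sdiff (subset_univ {i₀}), sum_singleton] at b1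
      have b2 : ev (pt c) (∑ i ∈ univ \ {i₀}, σ'.1 i) = ∑ i ∈ univ \ {i₀}, σ'.2 c i := by
        rw [sum_congr rfl fun i hi => (a2 c).2 i (Or.inr (by simpa using hi))]
        simp only [ev, Finset.sum_apply, sum_mul]
        exact sum_comm
      have b3 := ev_sub (pt c) 0 (∑ i ∈ univ \ {i₀}, σ'.1 i)
      rw [zero_sub, ev_zero, b2] at b3
      simp only [e, Function.update_self, b3]
      linear_combination b1
    · simp only [Function.update_of_ne e]
      exact (a2 c).2 i (Or.inr e)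
  · rcases u with x | c | q
    · have : x.1 ≠ i₀ := fun e => hi (e ▸ singleton_subset_iff.1 hu)
      simp [act, this]
    · rfl
    · rfl

/-- Tuples of nodes with a number. -/
def Tu (U X : Type) (m : ℕ) : Type := (X → U) × Fin m

instance Tu.act {X : Type} {m : ℕ} : AddAction (Sf F j I A k) (Tu (No F j I A k) X m) where
  vadd σ u := (fun l => Sym.act σ (u.1 l), u.2)
  zero_vadd _ := Prod.ext (funext fun _ => act_zero _) rfl
  add_vadd σ σ' _ := Prod.ext (funext fun _ => act_add σ σ' _) rfl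

section
variable {X : Type} [Fintype X] {m : ℕ}

/-- The shapes of a tuple. -/
noncomputable def shp (a : X → No F j I A k) : Finset (Fin k ⊕ Col j I A k) :=
  univ.biUnion fun x => sh (a x)

omit [Field F] in
theorem card_shp (a : X → No F j I A k) : (shp a).card ≤ Fintype.card X :=
  (card_biUnion_le_card_mul _ _ 1 fun _ _ => card_sh _).trans (by simp)

omit [Field F] in
theorem sub_shp (a : X → No F j I A k) (x : X) : sh (a x) ⊆ shp a :=
  subset_biUnion_of_mem (fun x => sh (a x)) (mem_univ x)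

theorem shp_act (σ : Sf F j I A k) (a : X → No F j I A k) : shp (fun x => act σ (a x)) = shp a :=
  biUnion_congr rfl fun _ _ => sh_act σ _

theorem vadd_congr {σ' : Sf F j I A k} {u : Tu (No F j I A k) X m} (h : σ - σ' ∈ van (shp u.1)) :
    σ +ᵥ u = σ' +ᵥ u :=
  Prod.ext (funext fun x => van_iff.1 h _ (sub_shp u.1 x)) rfl

theorem rank_tr {K : Type} [Field K] [IsSepClosed K] [Finite (Sf F j I A k)]
    (hK : (Nat.card (Sf F j I A k) : K) ≠ 0) [Fintype (Tu (No F j I A k) X m)]
    (hpt : Function.Injective pt) (hX : 4 * Fintype.card X < k)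
    (ent : ((Fin j → I) × A → Bool) → (X → No F j I A k) →
      Matrix (Tu (No F j I A k) X m) (Tu (No F j I A k) X m) K)
    (hent : ∀ (ρ : Sf F j I A k) z z' a u v, Good pt ρ (shp a ∪ shp u.1 ∪ shp v.1) z z' →
      ent z' (fun x => act ρ (a x)) (ρ +ᵥ u) (ρ +ᵥ v) = ent z a u v)
    (a : X → No F j I A k) (h : Good pt σ (shp a) z z') :
    (ent z' fun x => act σ (a x)).rank ≤ (ent z a).rank := by
  have c0 := card_shp a
  have cu : ∀ u : Tu (No F j I A k) X m, (shp u.1).card ≤ Fintype.card X := fun u => card_shp _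
  have sv : ∀ (ρ : Sf F j I A k) (u : Tu (No F j I A k) X m), shp (ρ +ᵥ u).1 = shp u.1 :=
    fun ρ u => shp_act ρ u.1
  have fa : ∀ ρ ρ' : Sf F j I A k, ρ - ρ' ∈ van (shp a) →
      (fun x => act ρ (a x)) = fun x => act ρ' (a x) :=
    fun ρ ρ' e => funext fun x => van_iff.1 e _ (sub_shp a x)
  obtain ⟨τ, hτ⟩ : ∃ τ : Finset (Fin k ⊕ Col j I A k) → Sf F j I A k,
      ∀ u : Tu (No F j I A k) X m, τ (shp u.1) - σ ∈ van (shp a) ∧
        Good pt (τ (shp u.1)) (shp a ∪ shp u.1) z z' :=
    ⟨fun t => Classical.epsilon fun ρ => ρ - σ ∈ van (shp a) ∧ Good pt ρ (shp a ∪ t) z z',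
      fun u => Classical.epsilon_spec (p := fun ρ => ρ - σ ∈ van (shp a) ∧
        Good pt ρ (shp a ∪ shp u.1) z z') ((h.ext' hpt subset_union_left (by
          have := card_union_le (shp a) (shp u.1)
          have := cu u
          omega)).imp fun ρ e => ⟨van_iff.2 e.1, e.2⟩)⟩
  have hb : Function.Bijective fun u : Tu (No F j I A k) X m => τ (shp u.1) +ᵥ u :=
    Finite.injective_iff_bijective.1 fun u v e => by
      have e' : shp u.1 = shp v.1 := by simpa only [sv] using congrArg (fun w => shp w.1) e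
      simp only [e'] at e
      exact AddAction.injective _ e
  let Γ : AddSubgroup (Sf F j I A k) := aut pt ⊓ van (shp a)
  have hΓ : (Nat.card (Multiplicative Γ) : K) ≠ 0 := fun e => by
    obtain ⟨n, hn⟩ := AddSubgroup.card_addSubgroup_dvd_card Γ
    exact hK (by rw [hn, Nat.cast_mul, show (Nat.card Γ : K) = 0 from e, zero_mul])
  have : NeZero (Monoid.exponent (Multiplicative Γ) : K) := ⟨fun e => by
    obtain ⟨n, hn⟩ := Group.exponent_dvd_nat_card (G := Multiplicative Γ)
    exact hΓ (by rw [hn, Nat.cast_mul, e, zero_mul])⟩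
  have iv : ∀ γ ∈ Γ, ∀ u v, ent z a (γ +ᵥ u) (γ +ᵥ v) = ent z a u v := fun γ hγ u v => by
    have := hent γ z z a u v fun c _ => ⟨(hγ.1 c).1.trans (sub_self _).symm, fun i _ => (hγ.1 c).2 i⟩
    rwa [show (fun x => act γ (a x)) = a from funext fun x => hγ.2 _ (sub_shp a x)] at this
  have hm : ∀ (ρ : Sf F j I A k) P, Good pt ρ (shp a ∪ P) z z → ρ ∈ van (shp a) →
      P.card ≤ 2 * Fintype.card X → ∃ γ : Γ, γ.1 - ρ ∈ van P := fun ρ P b1 b2 b3 => by
    obtain ⟨γ, c1, c2⟩ := b1.hom hpt (by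
      have := card_union_le (shp a) P
      omega)
    exact ⟨⟨γ, c1, by simpa using add_mem (van_mono subset_union_left c2) b2⟩,
      van_mono subset_union_right c2⟩
  rw [← Matrix.rank_submatrix _ (Equiv.ofBijective _ hb) (Equiv.ofBijective _ hb)]
  refine rank_le hΓ (fun u : Tu (No F j I A k) X m => shp u.1) (fun g u => sv g.toAdd.1 u) _ _
    (fun g => iv _ g.toAdd.2) (fun t t' d => ∃ (ρ : Sf F j I A k) (γ γ' : Γ),
      Good pt ρ (shp a ∪ t ∪ t') z z' ∧ ρ - σ ∈ van (shp a) ∧ γ.1 - (τ t - ρ) ∈ van t ∧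
        γ'.1 - (τ t' - ρ) ∈ van t' ∧ d = .ofAdd (γ' - γ)) ?_ (fun u v w => ?_) ?_
  · rintro u v _ ⟨ρ, γ, γ', b1, b2, b3, b4, rfl⟩
    have e1 : τ (shp u.1) +ᵥ u = ρ +ᵥ γ.1 +ᵥ u := by
      rw [← add_vadd]
      exact vadd_congr (by convert neg_mem b3 using 1; abel)
    have e2 : τ (shp v.1) +ᵥ v = ρ +ᵥ γ'.1 +ᵥ v := by
      rw [← add_vadd]
      exact vadd_congr (by convert neg_mem b4 using 1; abel)
    show ent z' _ (τ (shp u.1) +ᵥ u) (τ (shp v.1) +ᵥ v) = ent z a u ((γ'.1 - γ.1) +ᵥ v)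
    rw [e1, e2, ← fa ρ σ b2, hent ρ z z' a _ _ (by rwa [sv, sv]), ← iv _ γ.2 u, ← add_vadd,
      add_sub_cancel]
  · obtain ⟨ρ, b1, b2⟩ := h.ext' hpt (P' := shp a ∪ (shp u.1 ∪ shp v.1 ∪ shp w.1))
      subset_union_left (by
        have := card_union_le (shp a) (shp u.1 ∪ shp v.1 ∪ shp w.1)
        have := card_union_le (shp u.1 ∪ shp v.1) (shp w.1)
        have := card_union_le (shp u.1) (shp v.1)
        have := cu u
        have := cu v
        have := cu w
        omega)
    replace b1 := van_iff.2 b1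
    have b3 : ∀ y : Tu (No F j I A k) X m, shp y.1 ⊆ shp u.1 ∪ shp v.1 ∪ shp w.1 →
        ∃ γ : Γ, γ.1 - (τ (shp y.1) - ρ) ∈ van (shp y.1) := fun y hy =>
      hm _ _ ((hτ y).2.sub (b2.mono (union_subset_union_right hy)) z)
        (by simpa using sub_mem (hτ y).1 b1) (by have := cu y; omega)
    obtain ⟨x₁, d1⟩ := b3 u (subset_union_left.trans subset_union_left)
    obtain ⟨x₂, d2⟩ := b3 v (subset_union_right.trans subset_union_left)
    obtain ⟨x₃, d3⟩ := b3 w subset_union_right
    refine ⟨.ofAdd x₁, .ofAdd x₂, .ofAdd x₃, ⟨ρ, x₁, x₂, b2.mono ?_, b1, d1, d2, rfl⟩,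
      ⟨ρ, x₂, x₃, b2.mono ?_, b1, d2, d3, rfl⟩, ρ, x₁, x₃, b2.mono ?_, b1, d1, d3, rfl⟩ <;>
      intro s hs <;> simp only [mem_union] at hs ⊢ <;> tauto
  · rintro u v _ _ ⟨ρ, γ, γ', b1, b2, b3, b4, rfl⟩ ⟨ρ', η, η', d1, d2, d3, d4, rfl⟩
    obtain ⟨γ₀, e⟩ := hm (ρ - ρ') (shp u.1 ∪ shp v.1) ((b1.sub d1 z).mono (union_assoc _ _ _).ge)
      (by simpa using sub_mem b2 d2) (by
        have := card_union_le (shp u.1) (shp v.1)
        have := cu u
        have := cu v
        omega)
    refine ⟨.ofAdd (γ + γ₀ - η), .ofAdd (η' - γ' - γ₀), fun y hy => ?_, fun y hy => ?_, ?_⟩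
    · refine (vadd_congr (σ := γ.1 + γ₀.1 - η.1) (σ' := 0) ?_).trans (zero_vadd _ _)
      rw [hy]
      convert sub_mem (add_mem b3 (van_mono subset_union_left e)) d3 using 1
      abel
    · refine (vadd_congr (σ := η'.1 - γ'.1 - γ₀.1) (σ' := 0) ?_).trans (zero_vadd _ _)
      rw [hy]
      convert sub_mem (sub_mem d4 b4) (van_mono subset_union_right e) using 1
      abel
    · rw [← ofAdd_add, ← ofAdd_add]
      congr 1
      abel

end

variable [Finite F] [Finite I] [Finite A] (pt) (f₀ : Fin j → I)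

/-- The hard instances. -/
noncomputable def sI (z : (Fin j → I) × A → Bool) : Inst :=
  ⟨No F j I A k, inferInstance, src (mt pt z), .inr (.inr (Fin.last j, f₀, true)), k⟩

variable {pt f₀}

theorem rel_act (h : Good pt σ P z z') (e : Fin 6) {u v : No F j I A k} (hu : sh u ⊆ P)
    (hv : sh v ⊆ P) : (sI pt f₀ z).rel e u v ↔ (sI pt f₀ z').rel e (act σ u) (act σ v) := by
  fin_cases e
  · rcases u with ⟨_, _⟩ | _ | _ <;> simp [Inst.rel, sI, src, act]
  · rcases u with _ | _ | _ <;> simp [Inst.rel, sI, src, act]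
  · rcases u with _ | _ | _ <;> simp [Inst.rel, sI, src, act, -Prod.exists]
  · rcases u with _ | _ | _ <;> simp [Inst.rel, sI, src, act]
  · show srcCh (mt pt z) u v ↔ srcCh (mt pt z') (act σ u) (act σ v)
    rcases u with _ | c | _ <;> rcases v with x | _ | _ <;> try exact Iff.rfl
    obtain ⟨a1, a2⟩ := h _ (singleton_subset_iff.1 hu)
    simp only [srcCh, act, mt, decide_eq_true_eq, Pi.add_apply, sum_add_distrib, a1, ev_add,
      a2 _ (singleton_subset_iff.1 hv), ne_eq, add_right_inj]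
    rw [show bt z' (c.1, c.2.1) - bt z (c.1, c.2.1) + ∑ l, c.2.2 l = bt z' (c.1, c.2.1) ↔
      ∑ l, c.2.2 l = bt z (c.1, c.2.1) from ⟨fun a => by linear_combination a,
        fun a => by linear_combination a⟩]
  · exact (act_bij σ).1.eq_iff.symm

theorem holds_act (hpt : Function.Injective pt) {X : Type} [Fintype X] [DecidableEq X]
    (hX : 4 * Fintype.card X < k) {Q : Set Nat.Primes} (hQ : ∀ q ∈ Q, (Nat.card F).Coprime q)
    (φ : Fm Q X) (a : X → No F j I A k) (h : Good pt σ (shp a) z z') :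
    φ.holds (sI pt f₀ z) a ↔ φ.holds (sI pt f₀ z') fun x => act σ (a x) := by
  induction φ generalizing σ a z z' with
  | atom e x y => exact rel_act h e (sub_shp a x) (sub_shp a y)
  | not φ ih => exact not_congr (ih a h)
  | and φ ψ ih ih' => exact and_congr (ih a h) (ih' a h)
  | cnt m x φ ih =>
    have h1 : (shp a).card < k := (card_shp a).trans_lt (by omega)
    obtain ⟨i₀, hi⟩ := ex_free h1
    obtain ⟨σ', a1, a2⟩ := h.ext hpt h1.le i₀
    have h2 : ∀ u, φ.holds (sI pt f₀ z) (Function.update a x u : X → No F j I A k) ↔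
        φ.holds (sI pt f₀ z') (Function.update (fun x => act σ (a x)) x (act σ' u) :
          X → No F j I A k) := fun u => by
      have h3 : ∀ s ∈ shp (Function.update a x u), s ∈ shp a ∨ s ∈ sh u := fun s hs => by
        obtain ⟨y, -, hy⟩ := mem_biUnion.1 hs
        by_cases e : y = x
        · exact Or.inr (by simpa [e] using hy)
        · exact Or.inl (sub_shp a y (by simpa [e] using hy))
      refine (ih (σ := σ') _ fun c hc => ⟨(a2 c).1, fun i hi' => (a2 c).2 i ?_⟩).trans
        (iff_of_eq (congrArg _ (funext fun y => ?_)))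
      · refine (h3 _ hc).imp_right fun b1 e => hi ((h3 _ (e ▸ hi')).resolve_right fun b2 => ?_)
        simpa using card_le_one.1 (card_sh u) _ b1 _ b2
      · by_cases e : y = x
        · simp [e]
        · simp [e, a1 _ (sub_shp a y)]
    refine iff_of_eq (congrArg (m ≤ ·) ?_)
    refine Eq.trans (Set.ncard_image_of_injective _ (act_bij σ').1).symm (congrArg _ ?_)
    ext u'
    obtain ⟨u, rfl⟩ := (act_bij σ').2 u'
    exact ((act_bij σ').1.mem_set_image).trans (h2 u)
  | rk q m N s φ ih =>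
    have : Fact q.1.1.Prime := ⟨q.1.2⟩
    have : Finite (Tu (No F j I A k) X N) := inferInstanceAs (Finite ((X → No F j I A k) × Fin N))
    have := Fintype.ofFinite (Tu (No F j I A k) X N)
    let ent : ((Fin j → I) × A → Bool) → (X → No F j I A k) → Matrix (Tu (No F j I A k) X N)
        (Tu (No F j I A k) X N) (AlgebraicClosure (ZMod q.1)) := fun z a u v => algebraMap _ _
      ({e | (φ u.2 v.2 e).holds (sI pt f₀ z) fun x => ![a, u.1, v.1] (s x) x}.ncard : ZMod q.1)
    have e1 : ∀ z a, (Fm.rk q m N s φ).holds (sI pt f₀ z) a ↔ m ≤ (ent z a).rank := fun z a =>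
      (exists_congr fun ρ => (linearIndependent_algebraMap_comp_iff (R := ZMod q.1)
        (S := AlgebraicClosure (ZMod q.1)) (ι' := Tu (No F j I A k) X N)).symm).trans
        (ex_rows_iff (ent z a) m)
    have hK : (Nat.card (Sf F j I A k) : AlgebraicClosure (ZMod q.1)) ≠ 0 := fun e => by
      rw [CharP.cast_eq_zero_iff _ q.1.1, Module.natCard_eq_pow_finrank (K := F)] at e
      exact q.1.2.one_lt.ne' (Nat.Coprime.eq_one_of_dvd (hQ q q.2).symm (q.1.2.dvd_of_dvd_pow e))
    have e0 : ∀ (ρ : Sf F j I A k) z z' a u v, Good pt ρ (shp a ∪ shp u.1 ∪ shp v.1) z z' →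
        ent z' (fun x => act ρ (a x)) (ρ +ᵥ u) (ρ +ᵥ v) = ent z a u v := fun ρ z z' a u v b => by
      refine congrArg (fun S : Set (Fin N) => algebraMap (ZMod q.1) (AlgebraicClosure (ZMod q.1))
        (S.ncard : ZMod q.1)) (Set.ext fun e => ?_)
      have b1 : shp (fun x => ![a, u.1, v.1] (s x) x) ⊆ shp a ∪ shp u.1 ∪ shp v.1 :=
        biUnion_subset.2 fun x _ => by
          beta_reduce
          generalize s x = i
          fin_cases i
          · exact (sub_shp a x).trans (subset_union_left.trans subset_union_left)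
          · exact (sub_shp u.1 x).trans (subset_union_right.trans subset_union_left)
          · exact (sub_shp v.1 x).trans subset_union_right
      have b2 : (fun x => ![fun x => act ρ (a x), (ρ +ᵥ u).1, (ρ +ᵥ v).1] (s x) x) =
          fun x => act ρ (![a, u.1, v.1] (s x) x) := funext fun x => by
        generalize s x = i
        fin_cases i <;> rfl
      exact (iff_of_eq (congrArg ((φ u.2 v.2 e).holds (sI pt f₀ z')) b2)).trans
        (ih u.2 v.2 e _ (b.mono b1)).symm
    have e2 := fun {σ z z'} => rank_tr (σ := σ) (z := z) (z' := z') hK hpt hX ent e0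
    have e3 := e2 (fun x => act σ (a x)) (shp_act σ a ▸ h.neg)
    simp only [← act_add, neg_add_cancel, act_zero] at e3
    exact (e1 z a).trans ((iff_of_eq (congrArg (m ≤ ·) (le_antisymm e3 (e2 a h)))).trans
      (e1 z' _).symm)

theorem sI_ok (z : (Fin j → I) × A → Bool) :
    (sI pt f₀ z).C.ok (2 * j + 2) (j + 2) (sI pt f₀ z).o :=
  (src_and (mt pt z) ∅ j j.lt_succ_self f₀).1

theorem sI_sat (hpt : Function.Injective pt) (hk : 0 < k) (z : (Fin j → I) × A → Bool) :
    (sI pt f₀ z).sat (2 * j + 2) ↔ Tr (fun f => ∀ a, z (f, a) = true) j f₀ := by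
  refine ((and_iff_right (sI_ok z)).symm.trans (src_iff (mt pt z) k f₀)).trans ?_
  have inj : ∀ x : Fin k → Fin k → F, Function.Injective fun i => (i, x i) :=
    fun x _ _ h => (Prod.ext_iff.1 h).1
  have key : ∀ (x : Fin k → Fin k → F) (g : Option ((Fin j → I) × A)) (d : Fin k × Bool),
      ¬ (g = none ∧ d.2 = true) →
      ((∀ ε, ∃ y ∈ univ.image fun i => (i, x i), mt pt z (y, g, d, ε) = true) ↔
        ev (pt (g, d)) (∑ i, x i) = bt z (g, d)) := fun x g d hg => by
    simp only [mem_image, mem_univ, true_and, exists_exists_eq_and, mt, hg, if_false,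
      decide_eq_true_eq, ev_sum]
    refine ⟨fun h => ?_, fun h ε => ?_⟩
    · obtain ⟨i, hi⟩ := h fun i => ev (pt (g, d)) (x i)
      simpa using hi
    · by_contra hc
      push Not at hc
      exact (hc ⟨0, hk⟩).1 (by rw [← h]; exact sum_congr rfl fun i _ => (hc i).2.symm)
  have leaf : ∀ x : Fin k → Fin k → F, ∑ i, x i = 0 →
      (fun f => ∀ a r, ∃ y ∈ univ.image fun i => (i, x i), mt pt z (y, some (f, a), r) = true) =
        fun f => ∀ a, z (f, a) = true := fun x hx => by
    refine funext fun f => propext (forall_congr' fun a => ?_)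
    rw [Prod.forall]
    simp only [key x _ _ (show ¬ (some (f, a) = none ∧ _) by simp), hx, ev_zero, bt, Option.elim]
    refine ⟨fun h => ?_, fun h d => by simp [h]⟩
    simpa using h (⟨0, hk⟩, true)
  refine ⟨fun ⟨V, a1, a2, a3⟩ => ?_, fun h => ⟨univ.image fun i => (i, (0 : Fin k → Fin k → F) i),
    by rw [card_image_of_injective _ (inj _)]; simp, ?_, by rwa [leaf 0 (by simp)]⟩⟩
  · have b1 : ∀ i, ∃ x, (i, x) ∈ V := fun i => by
      obtain ⟨⟨i', x⟩, c1, c2⟩ := a2 ((i, true), 0)
      have : i' = i := by simpa [mt] using c2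
      exact ⟨x, this ▸ c1⟩
    choose x hx using b1
    obtain rfl : (univ.image fun i => (i, x i)) = V :=
      eq_of_subset_of_card_le (image_subset_iff.2 fun i _ => hx i) (by
        rw [card_image_of_injective _ (inj x), a1]
        simp)
    rwa [leaf x (Matrix.eq_zero_of_forall_index_sum_mul_pow_eq_zero
      (f := fun l => pt (none, l, false)) (fun _ _ h => by simpa using hpt h) fun l =>
        (key x none (l, false) (by simp)).1 fun ε => a2 ((l, false), ε))] at a3
  · rintro ⟨⟨i, _ | _⟩, ε⟩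
    · exact (key 0 none (i, false) (by simp)).2 (by simp [ev_zero, bt]) ε
    · exact ⟨(i, 0), by simp, by simp [mt]⟩

end Pool.Agent.P.MP_d1c5a4_lc.Sym
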