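import Pool.Agent.P.MP_d1c5a4_lc.Sym.Defs
import Pool.Agent.P.MP_d1c5a4_lc.Tgt

/-! Families of circuits with many partial isomorphisms: the bottom gates are juntas. -/

namespace Pool.Agent.P.MP_d1c5a4_lc.Sym

open Finset Classical

/-- Fewer than `p` proper affine subsets do not cover an affine set over the field with `p`
elements. -/
theorem avoid {p : ℕ} [Fact p.Prime] {H ι : Type} [AddCommGroup H] [Module (ZMod p) H]
    (S : Set H) (hS : ∀ a ∈ S, ∀ b ∈ S, ∀ c ∈ S, a - b + c ∈ S) (hne : S.Nonempty)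
    (B : ι → Set H) (hB : ∀ i, ∀ a ∈ S, ∀ b ∈ S, ∀ c ∈ S, a ∈ B i → b ∈ B i → c ∈ B i →
      a - b + c ∈ B i) (T : Finset ι) (hT : T.card < p) (h : ∀ i ∈ T, ∃ a ∈ S, a ∉ B i) :
    ∃ a ∈ S, ∀ i ∈ T, a ∉ B i := by
  induction T using Finset.induction_on with
  | empty => exact hne.imp fun a ha => ⟨ha, by simp⟩
  | insert j T hj ih =>
    rw [card_insert_of_notMem hj] at hT
    obtain ⟨x, hx, hx'⟩ := ih (by omega) fun i hi => h i (mem_insert_of_mem hi)
    obtain ⟨y, hy, hy'⟩ := h j (mem_insert_self _ _)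
    have h1 : ∀ t : ZMod p, x + t • (y - x) ∈ S := fun t => by
      obtain ⟨n, rfl⟩ := ZMod.natCast_zmod_surjective t
      induction n with
      | zero => simpa using hx
      | succ n ih =>
        have := hS _ ih _ hx _ hy
        rwa [show x + (n : ZMod p) • (y - x) - x + y = x + ((n + 1 : ℕ) : ZMod p) • (y - x) by
          push_cast; module] at this
    have h2 : ∀ i, ∀ s t : ZMod p, s ≠ t → x + s • (y - x) ∈ B i → x + t • (y - x) ∈ B i →
        ∀ u : ZMod p, x + u • (y - x) ∈ B i := fun i s t hst a1 a2 u => by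
      obtain ⟨n, hn⟩ := ZMod.natCast_zmod_surjective ((u - s) / (t - s))
      have : ∀ n : ℕ, x + (s + n * (t - s)) • (y - x) ∈ B i := fun n => by
        induction n with
        | zero => simpa using a1
        | succ n ih =>
          have := hB i _ (h1 _) _ (h1 _) _ (h1 _) ih a1 a2
          rwa [show x + (s + n * (t - s)) • (y - x) - (x + s • (y - x)) + (x + t • (y - x)) =
            x + (s + ((n + 1 : ℕ) : ZMod p) * (t - s)) • (y - x) by push_cast; module] at this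
      have h3 := this n
      rwa [hn, div_mul_cancel₀ _ (sub_ne_zero.2 hst.symm), add_sub_cancel] at h3
    by_contra hc
    push Not at hc
    choose f f1 f2 using fun t => hc _ (h1 t)
    have h3 : Function.Injective f := fun s t hst => by
      by_contra hn
      have h4 := h2 (f s) s t hn (f2 s) (hst ▸ f2 t)
      rcases mem_insert.1 (f1 s) with h5 | h5
      · exact hy' (by simpa [h5] using h4 1)
      · exact hx' _ h5 (by simpa using h4 0)
    have := card_le_card_of_injOn (s := univ) f (fun t _ => f1 t) h3.injOn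
    rw [card_univ, ZMod.card, card_insert_of_notMem hj] at this
    omega

/-- A family of circuits `D z` whose nodes are named by the elements of `ν`, with a group of shifts
that are partial isomorphisms. -/
structure Sys (β ν H Sh : Type) [AddCommGroup H] [AddAction H ν] (r M : ℕ) where
  D : (β → Bool) → Inst
  π : ∀ z, ν → (D z).U
  shp : ν → Finset Sh
  dep : Sh → β
  Good : H → Finset Sh → (β → Bool) → (β → Bool) → Prop
  surj : ∀ z, Function.Surjective (π z)
  card_shp : ∀ u, (shp u).card ≤ r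
  shp_add : ∀ (σ : H) u, shp (σ +ᵥ u) = shp u
  mono : ∀ {σ P P' z z'}, P ⊆ P' → Good σ P' z z' → Good σ P z z'
  inv : ∀ {σ P z z' u v} (e : Fin 6), Good σ P z z' → shp u ⊆ P → shp v ⊆ P →
    ((D z).rel e (π z u) (π z v) ↔ (D z').rel e (π z' (σ +ᵥ u)) (π z' (σ +ᵥ v)))
  zero : ∀ {P z z'}, (∀ s ∈ P, z (dep s) = z' (dep s)) → Good 0 P z z'
  ext : ∀ {σ P P' z z'}, Good σ P z z' → P ⊆ P' → P'.card ≤ M →
    ∃ σ', (∀ u, shp u ⊆ P → σ' +ᵥ u = σ +ᵥ u) ∧ Good σ' P' z z'
  sub : ∀ {σ σ' P z z'}, Good σ P z z' → Good σ' P z z' → Good (σ - σ') P z' z'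
  add : ∀ {σ σ' P z z'}, Good σ P z z' → Good σ' P z' z' → Good (σ' + σ) P z z'

namespace Sys

variable {β ν H Sh : Type} [AddCommGroup H] [AddAction H ν] {r M : ℕ} (X : Sys β ν H Sh r M)
  {σ : H} {P : Finset Sh} {z z' : β → Bool} {u v w : ν}

theorem inp (h : X.Good σ P z z') (hu : X.shp u ⊆ P) :
    (X.D z).C.inp (X.π z u) ↔ (X.D z').C.inp (X.π z' (σ +ᵥ u)) := X.inv 0 h hu hu

theorem neg (h : X.Good σ P z z') (hu : X.shp u ⊆ P) :
    (X.D z).C.neg (X.π z u) ↔ (X.D z').C.neg (X.π z' (σ +ᵥ u)) := X.inv 1 h hu hu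

theorem dis (h : X.Good σ P z z') (hu : X.shp u ⊆ P) :
    (X.D z).C.dis (X.π z u) ↔ (X.D z').C.dis (X.π z' (σ +ᵥ u)) := X.inv 2 h hu hu

theorem ch (h : X.Good σ P z z') (hu : X.shp u ⊆ P) (hv : X.shp v ⊆ P) :
    (X.D z).C.ch (X.π z u) (X.π z v) ↔ (X.D z').C.ch (X.π z' (σ +ᵥ u)) (X.π z' (σ +ᵥ v)) :=
  X.inv 4 h hu hv

theorem eq (h : X.Good σ P z z') (hu : X.shp u ⊆ P) (hv : X.shp v ⊆ P) :
    X.π z u = X.π z v ↔ X.π z' (σ +ᵥ u) = X.π z' (σ +ᵥ v) := X.inv 5 h hu hv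

/-- All children of `u` are among `v` and `w`. -/
def two (z : β → Bool) (u v w : ν) : Prop :=
  ∀ y, (X.D z).C.ch (X.π z u) y → y = X.π z v ∨ y = X.π z w

theorem two_tr (hM : 4 * r ≤ M) (h : X.Good σ P z z') (hu : X.shp u ⊆ P) (hv : X.shp v ⊆ P)
    (hw : X.shp w ⊆ P) (h2 : X.two z u v w) : X.two z' (σ +ᵥ u) (σ +ᵥ v) (σ +ᵥ w) := by
  intro y hy
  obtain ⟨y, rfl⟩ := X.surj z' y
  obtain ⟨σ', a1, a2⟩ := X.ext (P' := X.shp u ∪ X.shp v ∪ X.shp w ∪ X.shp y)
    (X.mono (union_subset (union_subset hu hv) hw) h) subset_union_left (by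
      have := X.card_shp u
      have := X.card_shp v
      have := X.card_shp w
      have := X.card_shp y
      have := card_union_le (X.shp u ∪ X.shp v ∪ X.shp w) (X.shp y)
      have := card_union_le (X.shp u ∪ X.shp v) (X.shp w)
      have := card_union_le (X.shp u) (X.shp v)
      omega)
  have b1 : X.shp u ⊆ X.shp u ∪ X.shp v ∪ X.shp w := subset_union_left.trans subset_union_left
  have b2 : X.shp v ⊆ X.shp u ∪ X.shp v ∪ X.shp w := subset_union_right.trans subset_union_left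
  have b3 : X.shp w ⊆ X.shp u ∪ X.shp v ∪ X.shp w := subset_union_right
  have b4 : X.shp (-σ' +ᵥ y) ⊆ X.shp u ∪ X.shp v ∪ X.shp w ∪ X.shp y := by
    rw [X.shp_add]
    exact subset_union_right
  have c1 := X.ch a2 (b1.trans subset_union_left) b4
  have c2 := X.eq a2 b4 (b2.trans subset_union_left)
  have c3 := X.eq a2 b4 (b3.trans subset_union_left)
  rw [vadd_neg_vadd] at c1 c2 c3
  rw [a1 u b1] at c1
  rw [a1 v b2] at c2
  rw [a1 w b3] at c3
  exact (h2 _ (c1.2 hy)).imp c2.1 c3.1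

theorem small_iff : (X.D z).C.small (X.π z u) ↔ ∃ v w, X.two z u v w :=
  ⟨fun ⟨v, w, h⟩ => by
    obtain ⟨v, rfl⟩ := X.surj z v
    obtain ⟨w, rfl⟩ := X.surj z w
    exact ⟨v, w, h⟩, fun ⟨_, _, h⟩ => ⟨_, _, h⟩⟩

/-- A property that is kept when the assignment is kept on the shapes in `P` is a junta. -/
theorem jun {W : ℕ} (P : Finset Sh) (hP : P.card ≤ W) {g : Fn β}
    (h : ∀ z z', X.Good 0 P z z' → g z → g z') : Jun W g :=
  ⟨P.image X.dep, card_image_le.trans hP, fun z z' a =>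
    h z z' (X.zero fun _ hs => a _ (mem_image_of_mem _ hs))⟩

theorem jun_rel (e : Fin 6) (u v : ν) : Jun (2 * r) fun z => (X.D z).rel e (X.π z u) (X.π z v) :=
  X.jun (X.shp u ∪ X.shp v) ((card_union_le _ _).trans (by
    have := X.card_shp u
    have := X.card_shp v
    omega)) fun z z' h => by
      simpa using (X.inv e h subset_union_left subset_union_right).1

theorem jun_two (hM : 4 * r ≤ M) (u v w : ν) : Jun (3 * r) fun z => X.two z u v w :=
  X.jun (X.shp u ∪ X.shp v ∪ X.shp w) (by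
    have := X.card_shp u
    have := X.card_shp v
    have := X.card_shp w
    have := card_union_le (X.shp u ∪ X.shp v) (X.shp w)
    have := card_union_le (X.shp u) (X.shp v)
    omega) fun z z' h h2 => by
      simpa using X.two_tr hM h (subset_union_left.trans subset_union_left)
        (subset_union_right.trans subset_union_left) subset_union_right h2

theorem jun_small (hM : 4 * r ≤ M) (u : ν) : Jun r fun z => (X.D z).C.small (X.π z u) :=
  X.jun (X.shp u) (X.card_shp u) fun z z' h h2 => by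
    obtain ⟨v, w, h2⟩ := X.small_iff.1 h2
    obtain ⟨σ', a1, a2⟩ := X.ext (P' := X.shp u ∪ X.shp v ∪ X.shp w) h
      (subset_union_left.trans subset_union_left) (by
        have := X.card_shp u
        have := X.card_shp v
        have := X.card_shp w
        have := card_union_le (X.shp u ∪ X.shp v) (X.shp w)
        have := card_union_le (X.shp u) (X.shp v)
        omega)
    have := X.two_tr hM a2 (subset_union_left.trans subset_union_left)
      (subset_union_right.trans subset_union_left) subset_union_right h2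
    rw [a1 u subset_rfl, zero_vadd] at this
    exact X.small_iff.2 ⟨_, _, this⟩

/-- The value of a small subcircuit is kept by the shifts that are good for its nodes. -/
theorem loc (hM : 4 * r ≤ M) (z : β → Bool) (h : ℕ) (v : ν) (hv : (X.D z).C.ok h 0 (X.π z v)) :
    ∃ W : Finset ν, v ∈ W ∧ W.card + 1 ≤ 2 ^ (h + 1) ∧ ∀ (σ : H) P z' (Y : Set (X.D z).U)
      (Y' : Set (X.D z').U), X.Good σ P z z' → (∀ w ∈ W, X.shp w ⊆ P) →
      (∀ w ∈ W, X.π z w ∈ Y ↔ X.π z' (σ +ᵥ w) ∈ Y') →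
      ((X.D z).C.val Y h (X.π z v) ↔ (X.D z').C.val Y' h (X.π z' (σ +ᵥ v))) := by
  induction h generalizing v with
  | zero => exact ⟨{v}, by simp, by simp, fun σ P z' Y Y' _ _ h => h v (by simp)⟩
  | succ h ih =>
    have h0 : 1 ≤ 2 ^ h := Nat.one_le_two_pow
    by_cases hi : (X.D z).C.inp (X.π z v)
    · refine ⟨{v}, by simp, by rw [card_singleton, pow_succ, pow_succ]; omega,
        fun σ P z' Y Y' a1 a2 a3 => ?_⟩
      have := (X.inp a1 (a2 v (by simp))).1 hi
      simpa [Cir.val_succ, hi, this] using a3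
    obtain ⟨v₁, v₂, hs⟩ : ∃ v₁ v₂, X.two z v v₁ v₂ := X.small_iff.1 (by
      by_contra hs
      have := ((hv.resolve_left hi).2.2 hs).1
      omega)
    have h1 : ∀ y, ∃ W : Finset ν, y ∈ W ∧ W.card + 1 ≤ 2 ^ (h + 1) ∧
        ((X.D z).C.ch (X.π z v) (X.π z y) → ∀ (σ : H) P z' (Y : Set (X.D z).U)
        (Y' : Set (X.D z').U), X.Good σ P z z' → (∀ w ∈ W, X.shp w ⊆ P) →
        (∀ w ∈ W, X.π z w ∈ Y ↔ X.π z' (σ +ᵥ w) ∈ Y') →
        ((X.D z).C.val Y h (X.π z y) ↔ (X.D z').C.val Y' h (X.π z' (σ +ᵥ y)))) := fun y => by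
      by_cases hy : (X.D z).C.ch (X.π z v) (X.π z y)
      · obtain ⟨W, a1, a2, a3⟩ := ih y ((X.D z).C.ok_ch hv hi hy)
        exact ⟨W, a1, a2, fun _ => a3⟩
      · exact ⟨{y}, by simp, by rw [card_singleton, pow_succ]; omega, fun h => absurd h hy⟩
    obtain ⟨W₁, a1, a2, a3⟩ := h1 v₁
    obtain ⟨W₂, b1, b2, b3⟩ := h1 v₂
    refine ⟨insert v (W₁ ∪ W₂), mem_insert_self _ _, by
      have := card_insert_le v (W₁ ∪ W₂)
      have := card_union_le W₁ W₂
      rw [pow_succ]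
      omega, fun σ P z' Y Y' c1 c2 c3 => ?_⟩
    have m1 : ∀ w ∈ W₁, w ∈ insert v (W₁ ∪ W₂) := fun w hw => by simp [hw]
    have m2 : ∀ w ∈ W₂, w ∈ insert v (W₁ ∪ W₂) := fun w hw => by simp [hw]
    have s0 := c2 v (mem_insert_self _ _)
    have s1 := c2 v₁ (m1 _ a1)
    have s2 := c2 v₂ (m2 _ b1)
    have d1 := fun h => a3 h σ P z' Y Y' c1 (fun w hw => c2 w (m1 w hw)) fun w hw => c3 w (m1 w hw)
    have d2 := fun h => b3 h σ P z' Y Y' c1 (fun w hw => c2 w (m2 w hw)) fun w hw => c3 w (m2 w hw)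
    have e1 := X.ch c1 s0 s1
    have e2 := X.ch c1 s0 s2
    have hs' := X.two_tr hM c1 s0 s1 s2 hs
    have f1 : (∀ y, (X.D z).C.ch (X.π z v) y → (X.D z).C.val Y h y) ↔
        ∀ y, (X.D z').C.ch (X.π z' (σ +ᵥ v)) y → (X.D z').C.val Y' h y := by
      refine ⟨fun g y hy => ?_, fun g y hy => ?_⟩
      · rcases hs' y hy with rfl | rfl
        · exact (d1 (e1.2 hy)).1 (g _ (e1.2 hy))
        · exact (d2 (e2.2 hy)).1 (g _ (e2.2 hy))
      · rcases hs y hy with rfl | rfl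
        · exact (d1 hy).2 (g _ (e1.1 hy))
        · exact (d2 hy).2 (g _ (e2.1 hy))
    have f2 : (∃ y, (X.D z).C.ch (X.π z v) y ∧ (X.D z).C.val Y h y) ↔
        ∃ y, (X.D z').C.ch (X.π z' (σ +ᵥ v)) y ∧ (X.D z').C.val Y' h y := by
      refine ⟨fun ⟨y, hy, g⟩ => ?_, fun ⟨y, hy, g⟩ => ?_⟩
      · rcases hs y hy with rfl | rfl
        · exact ⟨_, e1.1 hy, (d1 hy).1 g⟩
        · exact ⟨_, e2.1 hy, (d2 hy).1 g⟩
      · rcases hs' y hy with rfl | rfl
        · exact ⟨_, e1.2 hy, (d1 (e1.2 hy)).2 g⟩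
        · exact ⟨_, e2.2 hy, (d2 (e2.2 hy)).2 g⟩
    rw [Cir.val_succ, Cir.val_succ, ← f1, ← f2, ← X.inp c1 s0, ← X.neg c1 s0, ← X.dis c1 s0,
      c3 v (mem_insert_self _ _)]

/-- The shapes of a set of nodes. -/
noncomputable def shs (T : Finset ν) : Finset Sh := T.biUnion X.shp

theorem card_shs (T : Finset ν) : (X.shs T).card ≤ T.card * r :=
  card_biUnion_le_card_mul _ _ _ fun u _ => X.card_shp u

theorem sub_shs {T : Finset ν} (h : u ∈ T) : X.shp u ⊆ X.shs T := subset_biUnion_of_mem _ h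

theorem shs_mono {T T' : Finset ν} (h : T ⊆ T') : X.shs T ⊆ X.shs T' :=
  biUnion_subset_biUnion_of_subset_left _ h

/-- The conjunction of the children of a bottom gate depends only on the shapes of the gate and of
the chosen inputs. -/
theorem bot {p : ℕ} [Fact p.Prime] [Module (ZMod p) H] {h : ℕ} (hM : 2 ^ (h + 2) * r ≤ M)
    (V : Finset ν) (hp : 2 ^ (h + 1) * V.card < p) (u : ν) (b : Bool)
    (hz : X.Good 0 (X.shs (insert u V)) z z')
    (h1 : ∀ v, (X.D z).C.ch (X.π z u) (X.π z v) → (X.D z).C.ok h 0 (X.π z v))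
    (h2 : ∀ v, (X.D z').C.ch (X.π z' u) (X.π z' v) →
      ((X.D z').C.val (X.π z' '' V) h (X.π z' v) ↔ b = true)) (v : ν)
    (hv : (X.D z).C.ch (X.π z u) (X.π z v)) :
    (X.D z).C.val (X.π z '' V) h (X.π z v) ↔ b = true := by
  have h0 : 1 ≤ 2 ^ h := Nat.one_le_two_pow
  obtain ⟨W, w1, w2, w3⟩ := X.loc (le_trans (Nat.mul_le_mul_right _ (by
    rw [pow_succ, pow_succ]; omega)) hM) z h v (h1 v hv)
  have h3 : ∀ w, ∃ x, (x = u ∨ x ∈ V) ∧ (X.π z w ∈ X.π z '' V → x ∈ V ∧ X.π z w = X.π z x) :=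
    fun w => by
      by_cases hw : X.π z w ∈ X.π z '' V
      · obtain ⟨x, a1, a2⟩ := hw
        exact ⟨x, Or.inr a1, fun _ => ⟨a1, a2.symm⟩⟩
      · exact ⟨u, Or.inl rfl, fun h => absurd h hw⟩
  choose g g1 g2 using h3
  have c0 : insert u (W.image g) ⊆ insert u V := insert_subset (mem_insert_self _ _)
    (image_subset_iff.2 fun w _ => mem_insert.2 (g1 w))
  have c1 : ∀ x, (X.shs (insert x (insert u (W.image g) ∪ W))).card ≤ M := fun x => by
    refine (X.card_shs _).trans (le_trans (Nat.mul_le_mul_right _ ?_) hM)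
    have := card_insert_le x (insert u (W.image g) ∪ W)
    have := card_union_le (insert u (W.image g)) W
    have := card_insert_le u (W.image g)
    have := card_image_le (s := W) (f := g)
    rw [pow_succ]
    omega
  have c2 : ∀ w ∈ W, X.shp w ⊆ X.shs (insert u (W.image g) ∪ W) := fun w hw =>
    X.sub_shs (mem_union_right _ hw)
  have c3 : ∀ x ∈ insert u V, ∃ σ : H, ((∀ y, X.shp y ⊆ X.shs (insert u (W.image g)) → σ +ᵥ y = y) ∧
      X.Good σ (X.shs (insert u (W.image g) ∪ W)) z z') ∧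
      ∀ w ∈ W, X.π z' (σ +ᵥ w) = X.π z' x → X.π z w = X.π z x := fun x hx => by
    obtain ⟨σ, a1, a2⟩ := X.ext (X.mono (X.shs_mono (insert_subset hx c0)) hz)
      (X.shs_mono (insert_subset_insert x subset_union_left)) (c1 x)
    refine ⟨σ, ⟨fun y hy => (a1 y (hy.trans (X.shs_mono (subset_insert _ _)))).trans (zero_vadd _ _),
      X.mono (X.shs_mono (subset_insert _ _)) a2⟩, fun w hw e => ?_⟩
    refine (X.eq a2 ((c2 w hw).trans (X.shs_mono (subset_insert _ _)))
      (X.sub_shs (mem_insert_self _ _))).2 ?_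
    rw [a1 x (X.sub_shs (mem_insert_self _ _)), zero_vadd, e]
  obtain ⟨σ, ⟨s1, s2⟩, s3⟩ := avoid (p := p)
    {σ : H | (∀ y, X.shp y ⊆ X.shs (insert u (W.image g)) → σ +ᵥ y = y) ∧
      X.Good σ (X.shs (insert u (W.image g) ∪ W)) z z'}
    (fun a ha b hb c hc => ⟨fun y hy => by
      rw [add_vadd, hc.1 y hy]
      conv_lhs => rw [← hb.1 y hy, ← add_vadd, sub_add_cancel, ha.1 y hy],
      X.add hc.2 (X.sub ha.2 hb.2)⟩)
    ((c3 u (mem_insert_self _ _)).imp fun _ => And.left)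
    (fun i : ν × ν => {σ | i.1 ∈ W ∧ X.π z' (σ +ᵥ i.1) = X.π z' i.2})
    (fun i a ha b hb c hc e1 e2 e3 => ⟨e1.1, by
      have := (X.eq (u := b +ᵥ i.1) (v := c +ᵥ i.1) (X.sub ha.2 hb.2)
        (by rw [X.shp_add]; exact c2 _ e1.1) (by rw [X.shp_add]; exact c2 _ e1.1)).1
        (e2.2.trans e3.2.symm)
      rw [← add_vadd, sub_add_cancel, ← add_vadd] at this
      exact this.symm.trans e1.2⟩)
    ((W.filter fun w => X.π z w ∉ X.π z '' V) ×ˢ V) (by
      rw [card_product]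
      exact (Nat.mul_le_mul_right _ ((card_filter_le _ _).trans (by omega))).trans_lt hp)
    fun i hi => by
      obtain ⟨i1, i2⟩ := mem_product.1 hi
      obtain ⟨σ, a1, a2⟩ := c3 i.2 (mem_insert_of_mem i2)
      exact ⟨σ, a1, fun e => (mem_filter.1 i1).2 ⟨i.2, i2, (a2 _ e.1 e.2).symm⟩⟩
  have c4 : X.shp u ⊆ X.shs (insert u (W.image g)) := X.sub_shs (mem_insert_self _ _)
  rw [w3 σ _ z' _ (X.π z' '' V) s2 c2 fun w hw => ⟨fun e => ?_, fun ⟨x, e1, e2⟩ => ?_⟩]
  · refine h2 _ ?_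
    have := (X.ch s2 (c4.trans (X.shs_mono subset_union_left)) (c2 v w1)).1 hv
    rwa [s1 u c4] at this
  · have a1 : X.shp (g w) ⊆ X.shs (insert u (W.image g)) :=
      X.sub_shs (mem_insert_of_mem (mem_image_of_mem _ hw))
    have := (X.eq s2 (c2 w hw) (a1.trans (X.shs_mono subset_union_left))).1 (g2 w e).2
    rw [s1 _ a1] at this
    exact ⟨g w, (g2 w e).1, this.symm⟩
  · by_contra hc
    exact s3 (w, x) (mem_product.2 ⟨mem_filter.2 ⟨hw, hc⟩, e1⟩) ⟨hw, e2.symm⟩

end Sys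

end Pool.Agent.P.MP_d1c5a4_lc.Sym
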