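import Pool.Agent.P.MP_d1c5a4_lc.Sym.Game

/-! No reduction in counting and rank logic from a level to a lower level. -/

namespace Pool.Agent.P.MP_d1c5a4_lc.Sym

open Finset Classical Filter

noncomputable instance Tu.fin (U : Type) [Fintype U] (r m : ℕ) : Fintype (Tu U (Fin r) m) :=
  inferInstanceAs (Fintype ((Fin r → U) × Fin m))

theorem Tu.card (U : Type) [Fintype U] (r m : ℕ) :
    Fintype.card (Tu U (Fin r) m) = Fintype.card U ^ r * m :=
  (Fintype.card_prod (Fin r → U) (Fin m)).trans (by simp)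

variable {F I A : Type} [Field F] {j k r m : ℕ} [Finite F] [Finite I] [Finite A]
  {pt : Col j I A k → F} {f₀ : Fin j → I} {Q : Set Nat.Primes}

/-- The shift system of an interpretation of the hard instances. -/
noncomputable def mkSys (hpt : Function.Injective pt) (hk : 8 * r < k)
    (hQ : ∀ q ∈ Q, (Nat.card F).Coprime q) (g₀ : (Fin j → I) × A)
    (φ : Fin 6 → ℕ → ℕ → Fm Q (Bool × Fin r)) (D : ((Fin j → I) × A → Bool) → Inst)
    (π : ∀ z, Tu (No F j I A k) (Fin r) m → (D z).U) (h1 : ∀ z, Function.Surjective (π z))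
    (h2 : ∀ z (a : Bool × Fin r → No F j I A k) (e : Fin 6) (i i' : Fin m),
      (φ e i i').holds (sI pt f₀ z) a ↔
        (D z).rel e (π z (fun l => a (false, l), i)) (π z (fun l => a (true, l), i'))) :
    Sys ((Fin j → I) × A) (Tu (No F j I A k) (Fin r) m) (Sf F j I A k) (Fin k ⊕ Col j I A k) r
      (k - 1) where
  D := D
  π := π
  shp u := shp u.1
  dep s := s.elim (fun _ => g₀) fun c => c.1.getD g₀
  Good := Good pt
  surj := h1
  card_shp u := (card_shp u.1).trans (by simp)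
  shp_add σ u := shp_act σ u.1
  mono := Good.mono
  inv := fun {σ P z z' u v} e h hu hv => by
    let a : Bool × Fin r → No F j I A k := fun b => cond b.1 (v.1 b.2) (u.1 b.2)
    refine (h2 z a e u.2 v.2).symm.trans ((holds_act hpt (by simp; omega) hQ _ a
      (h.mono ?_)).trans (h2 z' (fun b => act σ (a b)) e u.2 v.2))
    refine biUnion_subset.2 ?_
    rintro ⟨_ | _, l⟩ -
    · exact (sub_shp u.1 l).trans hu
    · exact (sub_shp v.1 l).trans hv
  zero := fun {P z z'} h c hc => ⟨by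
    obtain ⟨_ | g, d⟩ := c
    · simp [bt]
    · have : z g = z' g := h _ hc
      simp [bt, this], fun _ _ => by simp [ev_zero]⟩
  ext := fun h hP hM =>
    let ⟨σ', a1, a2⟩ := h.ext' hpt hP (by omega)
    ⟨σ', fun u hu => Prod.ext (funext fun l => a1 _ ((sub_shp u.1 l).trans hu)) rfl, a2⟩
  sub := fun h h' => h.sub h' _
  add := fun h h' c hc => ⟨by simp [sum_add_distrib, (h c hc).1, (h' c hc).1],
    fun i hi => by simp [ev_add, (h c hc).2 i hi, (h' c hc).2 i hi]⟩

theorem sizes {j k L p q : ℕ} [NeZero p] (hk : 0 < k) (hL : 4 * k + 2 * j + 5 ≤ L)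
    (h1 : L ^ (4 * j + 2) < p) (h6 : p ≤ q) :
    Fintype.card (Col j (Ix L) (Fin L) k) ≤ p ∧
    p ≤ Fintype.card (No (ZMod p) j (Ix L) (Fin L) k) ∧
    Fintype.card (No (ZMod p) j (Ix L) (Fin L) k) ≤ q ^ (k + 2) := by
  simp only [Fintype.card_sum, Fintype.card_prod, Fintype.card_option, Fintype.card_pi,
    Fintype.card_fin, prod_const, card_univ, Fintype.card_bool, ZMod.card]
  have e1 : L ^ (4 * j + 2) = (L * L ^ 3) ^ j * L * L := by ring
  have h3 : 1 ≤ (L * L ^ 3) ^ j := Nat.one_le_pow _ _ (by have : 0 < L := by omega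
                                                          positivity)
  rw [e1] at h1
  rw [pow_add q]
  generalize (L * L ^ 3) ^ j = M at *
  have h4 : 1 ≤ M * L := by nlinarith
  have h5 : (M * L + 1) * (k * 2) ≤ M * L * L := by nlinarith
  have h7 : p ≤ p ^ k := Nat.le_self_pow (by omega) _
  have h8 := Nat.pow_le_pow_left h6 k
  have h9 : (j + 1) * (M * 2) ≤ M * L := by nlinarith
  have h10 : L ≤ M * L := Nat.le_mul_of_pos_left _ h3
  have h11 : M * L ≤ M * L * L := Nat.le_mul_of_pos_right _ (by omega)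
  refine ⟨h5.trans h1.le, (h7.trans (Nat.le_mul_of_pos_left _ hk)).trans (Nat.le_add_right _ _), ?_⟩
  have h13 : 1 ≤ q ^ k := Nat.one_le_pow _ _ (by omega)
  generalize q ^ k = R at *
  have b1 : k * p ^ k ≤ q * R := Nat.mul_le_mul (by omega) h8
  have b2 : (M * L + 1) * (k * 2 * p ^ k) ≤ q * R := by
    rw [← mul_assoc]
    exact Nat.mul_le_mul (by omega) h8
  have b3 : q ≤ q * R := Nat.le_mul_of_pos_right _ h13
  have b4 : 3 * (q * R) ≤ q * (q * R) := Nat.mul_le_mul_right _ (by omega)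
  nlinarith

theorem ex_prime (hQ : Qᶜ.Infinite) {e : ℕ} (he : 0 < e) {P : ℕ → Prop} (h : ∀ᶠ L in atTop, P L) :
    ∃ (L : ℕ) (p : Nat.Primes), P L ∧ p ∉ Q ∧ L ^ e < p ∧ p ≤ L ^ (2 * e) := by
  obtain ⟨L₀, h⟩ := eventually_atTop.1 h
  obtain ⟨_, ⟨p, hp, rfl⟩, h1⟩ := (hQ.image Subtype.val_injective.injOn).exists_gt ((L₀ + 2) ^ e)
  have h2 : ∃ L, (p : ℕ) ≤ (L + 1) ^ e := ⟨p, (Nat.le_succ _).trans (Nat.le_self_pow he.ne' _)⟩
  have h3 := Nat.find_spec h2
  have h4 : L₀ + 2 < Nat.find h2 + 1 := lt_of_pow_lt_pow_left₀ e (Nat.zero_le _) (h1.trans_le h3)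
  refine ⟨Nat.find h2, p, h _ (by omega), hp, ?_, h3.trans ?_⟩
  · have := Nat.find_min h2 (m := Nat.find h2 - 1) (by omega)
    rwa [Nat.sub_add_cancel (by omega), not_le] at this
  · rw [pow_mul]
    exact Nat.pow_le_pow_left (by nlinarith) _

theorem hard (hQ : Qᶜ.Infinite) (m t h r k : ℕ) (hk : 2 ^ (h + 3) * r < k) :
    ¬ Red Q r k (t + m + 2) (2 * (t + m) + 2) (m + 1) (t + 1) h := by
  rintro ⟨c, H⟩
  generalize hj : t + m = j at H
  obtain ⟨K, hK⟩ : ∃ K, K = (m + 1) * c := ⟨_, rfl⟩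
  obtain ⟨L, ⟨p, hp⟩, ⟨h1, h2⟩, p0, p1, p2⟩ := ex_prime hQ (e := 4 * j + 2) (by omega) ((sipser j
    (((K + 3) * r + (c * c * (2 * r) + c * (3 * r))) * 2 ^ (12 * h + 2 + 2 * (m + 1)))
    (2 * (4 * j + 2) * (k + 2) * ((r + c + 1) * (c + 1)) * 2 ^ (12 * h + 2 + 2 * (m + 1)))).and
      (eventually_ge_atTop (4 * k + 2 * j + 5 + 2 ^ (h + 1) * K + c)))
  have hL : 0 < L := by omega
  replace p1 : L ^ (4 * j + 2) < p := p1
  have : Fact p.Prime := ⟨hp⟩
  obtain ⟨s1, s2, s3⟩ := sizes (j := j) (k := k) (L := L) (by omega) (by omega) p1 p2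
  rw [← pow_mul] at s3
  have p4 : ∀ q ∈ Q, (Nat.card (ZMod p)).Coprime q := fun q hq => by
    rw [Nat.card_zmod]
    exact (Nat.coprime_primes hp q.2).2 fun e =>
      p0 ((Subtype.ext e : (⟨p, hp⟩ : Nat.Primes) = q) ▸ hq)
  obtain ⟨pt, hpt⟩ := Function.Embedding.nonempty_of_card_le (s1.trans_eq (ZMod.card p).symm)
  have p3 : L < p := lt_of_le_of_lt (Nat.le_self_pow (by omega) L) p1
  have p5 : 8 * r < k := lt_of_le_of_lt (Nat.mul_le_mul_right _ (by
    have : 1 ≤ 2 ^ h := Nat.one_le_two_pow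
    rw [pow_succ, pow_succ, pow_succ]
    omega)) hk
  have p6 : 4 * Fintype.card (Bool × Fin r) < k := by
    simp
    omega
  have p7 : 2 ^ (h + 2) * r ≤ k - 1 := by
    rw [pow_succ, mul_right_comm] at hk
    omega
  let f₀ : Fin j → Ix L := fun _ => (⟨0, hL⟩, ⟨0, by positivity⟩)
  obtain ⟨φ, χ, ψ, H⟩ := H (Fintype.card (No (ZMod p) j (Ix L) (Fin L) k)) (by omega)
  choose D lev π d1 d2 d3 d4 d5 using fun z => H (sI pt f₀ z) rfl
    (Nat.card_eq_fintype_card (α := No (ZMod p) j (Ix L) (Fin L) k)) (sI_ok z)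
  have d6 : ∀ z, (D z).k = (D fun _ => true).k := fun z =>
    ((d5 z fun _ => (sI pt f₀ z).o).2.2 _).1 ((holds_act (σ := 0) hpt p6 p4 _ _
      fun c hc => by simp [sI, sh, shp] at hc).2 (((d5 (fun _ => true) _).2.2 _).2 rfl))
  have d7 := d2 fun _ => true
  generalize (D fun _ => true).k = k' at d6 d7
  generalize hn : Fintype.card (No (ZMod p) j (Ix L) (Fin L) k) = n at s2 s3
  have s4 : ∀ a ≤ (r + c + 1) * (c + 1), n ^ a ≤
      L ^ (2 * (4 * j + 2) * (k + 2) * ((r + c + 1) * (c + 1))) := fun a ha => by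
    rw [pow_mul]
    exact (Nat.pow_le_pow_right (by omega) ha).trans (Nat.pow_le_pow_left s3 _)
  subst hn
  let X := mkSys hpt p5 p4 (f₀, ⟨0, hL⟩) φ D π d1 fun z a => (d5 z a).1
  obtain ⟨g, g1, g2⟩ := X.tgt (p := p) (h₀ := h) (K := K)
    (W := (K + 3) * r + (c * c * (2 * r) + c * (3 * r)))
    (S := L ^ (2 * (4 * j + 2) * (k + 2) * ((r + c + 1) * (c + 1)))) p7 (by omega)
    (le_trans (by omega) (Nat.le_self_pow (by positivity) L))
    (by rw [Tu.card, ← pow_add]; exact s4 _ (by nlinarith))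
    (by rw [Tu.card, ← pow_add, ← pow_mul]; exact s4 _ (Nat.mul_le_mul (by omega) (by omega)))
    (by omega) (le_add_left (add_le_add (Nat.mul_le_mul_right _ (Nat.mul_le_mul d7 d7))
      (Nat.mul_le_mul_right _ d7))) t lev (fun u i => X.jun (X.shp u) (X.card_shp u)
        fun z z' a b => ((d5 z' fun s => u.1 s.2).2.1 i u.2).1 (by
          have := (holds_act hpt p6 p4 (χ i u.2) (fun s => u.1 s.2) (a.mono
            (biUnion_subset.2 fun s _ => sub_shp u.1 s.2))).1 (((d5 z fun s => u.1 s.2).2.1 i u.2).2 b)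
          simpa only [act_zero] using this))
    d6 d3 m true ∅ (by rw [card_empty, zero_add, hK]; exact Nat.mul_le_mul_left _ d7)
  rw [← pow_mul, hj] at g1
  refine h1 f₀ (g1.congr fun z => (sI_sat hpt (by omega) z).symm.trans ((d4 z).trans ?_))
  exact (iff_of_eq (congrArg ((X.D z).alt (lev z) h (m + 1) true)
    ((congrArg _ coe_empty).trans (Set.image_empty (X.π z))).symm)).trans
    ((iff_true_right rfl).symm.trans (g2 z trivial))

/-- The identity is a reduction of dimension one with one block. -/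
theorem red_refl (k t h : ℕ) : Red Q 1 k t h 1 t h := by
  have T : ∀ (q : Prop) [Decidable q] (B : Inst) (a : Bool × Fin 1 → B.U), Fm.holds (Q := Q) B (if q then
      .atom 5 (false, 0) (false, 0) else .not (.atom 5 (false, 0) (false, 0))) a ↔ q :=
    fun q _ B a => by
      split_ifs with e
      · exact iff_of_true rfl e
      · exact iff_of_false (fun a => a rfl) e
  refine ⟨k, fun n hn => ⟨fun e _ _ => .atom e (false, 0) (true, 0), fun m _ => if 0 = m then
    .atom 5 (false, 0) (false, 0) else .not (.atom 5 (false, 0) (false, 0)), fun m => if k = m then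
    .atom 5 (false, 0) (false, 0) else .not (.atom 5 (false, 0) (false, 0)), fun B h1 h2 h3 =>
    ⟨B, fun _ => 0, fun u => u.1 0, fun u => ⟨(fun _ => u, ⟨0, ?_⟩), rfl⟩, h1.le, h3,
      by simp [Inst.sat, Inst.alt, and_assoc], fun a =>
        ⟨fun _ _ _ => Iff.rfl, fun m _ => T (0 = m) B a, fun m => (T (k = m) B a).trans (by rw [h1])⟩⟩⟩⟩
  have := B.fin
  have : Nonempty B.U := ⟨u⟩
  exact Nat.pow_pos (h2 ▸ Nat.card_pos)

end Pool.Agent.P.MP_d1c5a4_lc.Sym
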