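import Pool.Agent.P.MP_d1c5a4_lc.Sym.Loc

/-! Weighted satisfiability of such a family is a formula of depth `t` over juntas. -/

namespace Pool.Agent.P.MP_d1c5a4_lc.Sym.Sys

open Finset Classical

variable {β ν H Sh : Type} [AddCommGroup H] [AddAction H ν] {r M : ℕ} (X : Sys β ν H Sh r M)
  {p : ℕ} [Fact p.Prime] [Module (ZMod p) H] {h₀ K W S : ℕ} (hM : 2 ^ (h₀ + 2) * r ≤ M)
  (hp : 2 ^ (h₀ + 1) * K < p) {V : Finset ν} (hV : V.card ≤ K)
include hM hp hV

theorem jun_all {h : ℕ} (hh : h ≤ h₀) (u : ν) (b : Bool) : ∃ g, Jun ((K + 1) * r) g ∧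
    ∀ z, (∀ v, (X.D z).C.ch (X.π z u) (X.π z v) → (X.D z).C.ok h 0 (X.π z v)) →
      ((∀ v, (X.D z).C.ch (X.π z u) (X.π z v) →
        ((X.D z).C.val (X.π z '' V) h (X.π z v) ↔ b = true)) ↔ g z) := by
  refine ⟨fun z => ∃ z', (∀ s ∈ X.shs (insert u V), z (X.dep s) = z' (X.dep s)) ∧
    ∀ v, (X.D z').C.ch (X.π z' u) (X.π z' v) →
      ((X.D z').C.val (X.π z' '' V) h (X.π z' v) ↔ b = true),
    ⟨(X.shs (insert u V)).image X.dep, card_image_le.trans ((X.card_shs _).trans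
      (Nat.mul_le_mul_right _ ((card_insert_le _ _).trans (by omega)))),
      fun x y hxy ⟨z', a1, a2⟩ => ⟨z', fun s hs => by
        rw [← hxy _ (mem_image_of_mem _ hs)]
        exact a1 s hs, a2⟩⟩,
    fun z hz => ⟨fun a => ⟨z, fun _ _ => rfl, a⟩, fun ⟨z', a1, a2⟩ => ?_⟩⟩
  exact X.bot (p := p) (le_trans (Nat.mul_le_mul_right _
    (Nat.pow_le_pow_right two_pos (by omega))) hM) V
    ((Nat.mul_le_mul (Nat.pow_le_pow_right two_pos (by omega)) hV).trans_lt hp) u b
    (X.zero a1) hz a2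

omit hM hp in
theorem jun_mem (u : ν) (b : Bool) :
    Jun ((K + 1) * r) fun z => X.π z u ∈ X.π z '' V ↔ b = true := by
  refine X.jun (X.shs (insert u V)) ((X.card_shs _).trans
    (Nat.mul_le_mul_right _ ((card_insert_le _ _).trans (by omega)))) fun z z' h a => ?_
  rw [← a]
  refine exists_congr fun x => and_congr_right fun hx => ?_
  simpa using (X.eq h (X.sub_shs (mem_insert_of_mem hx)) (X.sub_shs (mem_insert_self _ _))).symm

theorem rep_val [Fintype ν] (hS : 2 ≤ S) (hν : Fintype.card ν ≤ S) (hW : (K + 3) * r ≤ W)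
    {h : ℕ} (hh : h ≤ h₀) (t : ℕ) (u : ν) (b : Bool) : Rep W S (12 * h) (t + 1)
      (fun z => (X.D z).C.ok h (t + 1) (X.π z u))
      fun z => (X.D z).C.val (X.π z '' V) h (X.π z u) ↔ b = true := by
  have w1 : (K + 1) * r ≤ W := le_trans (Nat.mul_le_mul_right _ (by omega)) hW
  have w3 : 3 * r ≤ W := le_trans (Nat.mul_le_mul_right _ (by omega)) hW
  have w4 : 4 * r ≤ M := le_trans (Nat.mul_le_mul_right _ (by
    have : 1 ≤ 2 ^ h₀ := Nat.one_le_two_pow
    rw [pow_succ, pow_succ]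
    omega)) hM
  induction h generalizing t u b with
  | zero => exact Rep.jun hS ((X.jun_mem hV u b).mono w1)
  | succ h ih =>
    replace ih := ih (by omega)
    have hJ : ∀ e u v, Jun W fun z => (X.D z).rel e (X.π z u) (X.π z v) := fun e u v =>
      (X.jun_rel e u v).mono (by omega)
    have j0 : Jun W fun z => (X.D z).C.inp (X.π z u) := hJ 0 u u
    have j1 : Jun W fun z => (X.D z).C.neg (X.π z u) := hJ 1 u u
    have j2 : Jun W fun z => (X.D z).C.dis (X.π z u) := hJ 2 u u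
    have j4 : ∀ v, Jun W fun z => (X.D z).C.ch (X.π z u) (X.π z v) := hJ 4 u
    have h1 : ∀ t b, Rep W S (12 * h + 2) (t + 1)
        (fun z => ∀ v, (X.D z).C.ch (X.π z u) (X.π z v) → (X.D z).C.ok h (t + 1) (X.π z v))
        fun z => ∃ v, (X.D z).C.ch (X.π z u) (X.π z v) ∧
          ((X.D z).C.val (X.π z '' V) h (X.π z v) ↔ b = true) := fun t b =>
      Rep.ex hS hν fun v => Rep.gand hS (j4 v)
        ((ih t v b).imp fun z hz => ⟨hz.1 v hz.2, Iff.rfl⟩)
    have h2 : ∀ b, Rep W S (12 * h + 2) (t + 1)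
        (fun z => ∀ v, (X.D z).C.ch (X.π z u) (X.π z v) → (X.D z).C.ok h t (X.π z v))
        fun z => ∀ v, (X.D z).C.ch (X.π z u) (X.π z v) →
          ((X.D z).C.val (X.π z '' V) h (X.π z v) ↔ b = true) := fun b => by
      rcases t with _ | t
      · obtain ⟨g, g1, g2⟩ := X.jun_all hM hp hV (h := h) (by omega) u b
        exact (((Rep.jun hS (g1.mono w1)).mono hS (Nat.zero_le _)).imp fun z hz => ⟨hz, g2 z hz⟩ :)
      · exact ((h1 t !b).neg hS).imp fun z hz => ⟨hz, by cases b <;> simp⟩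
    have h3 : ∀ v b, Rep W S (12 * h + 1) (t + 1)
        (fun z => ∀ v, (X.D z).C.ch (X.π z u) (X.π z v) → (X.D z).C.ok h (t + 1) (X.π z v))
        fun z => (X.D z).C.ch (X.π z u) (X.π z v) →
          ((X.D z).C.val (X.π z '' V) h (X.π z v) ↔ b = true) := fun v b =>
      Rep.gimp hS (j4 v) ((ih t v b).imp fun z hz => ⟨hz.1 v hz.2, Iff.rfl⟩)
    have h4 : ∀ c b, Rep W S (12 * h + 6) (t + 1)
        (fun z => (X.D z).C.ok (h + 1) (t + 1) (X.π z u) ∧ ¬ (X.D z).C.inp (X.π z u))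
        fun z => (X.D z).C.qf (X.π z u) c fun v =>
          (X.D z).C.val (X.π z '' V) h v ↔ b = true := fun c b => by
      cases c
      · refine ((Rep.and_or hS
          (pm := fun z => (X.D z).C.ok (h + 1) (t + 1) (X.π z u) ∧ ¬ (X.D z).C.inp (X.π z u))
          (Rep.ex hS hν fun v => Rep.ex hS hν fun w =>
          Rep.gand hS ((X.jun_two w4 u v w).mono w3)
            ((Rep.and_or hS (h3 v b) (h3 w b)).1.imp fun z hz =>
            ⟨fun y => (X.D z).C.ok_ch hz.1.1 hz.1.2, Iff.rfl⟩))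
          (Rep.gand hS ((X.jun_small w4 u).mono (by omega)).not ((h2 b).imp fun z hz =>
            ⟨fun y => ((hz.1.1.resolve_left hz.1.2).2.2 hz.2).2 _, Iff.rfl⟩))).2.mono hS
              (by omega)).imp fun z hz => ⟨hz, ?_⟩
        simp only [Cir.qf, Bool.false_eq_true, false_and, true_and, false_or]
        refine ⟨fun h => ?_, fun h => h.elim (fun ⟨v, w, a1, a2, a3⟩ y hy => ?_)
          fun h => (X.surj z).forall.2 h.2⟩
        · by_cases hs : (X.D z).C.small (X.π z u)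
          · exact Or.inl ((X.small_iff.1 hs).imp fun v => Exists.imp fun w a => ⟨a, h _, h _⟩)
          · exact Or.inr ⟨hs, fun _ => h _⟩
        · rcases a1 y hy with rfl | rfl
          · exact a2 hy
          · exact a3 hy
      · exact ((h1 t b).mono hS (by omega)).imp fun z hz =>
          ⟨fun y => (X.D z).C.ok_ch hz.1 hz.2, by simp [Cir.qf, (X.surj z).exists]⟩
    exact ((Rep.and_or hS
      (Rep.gand hS j0 (Rep.jun hS ((X.jun_mem hV u b).mono w1)))
      (Rep.gand hS j0.not (Rep.and_or hS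
        (Rep.gand hS j1 ((h4 b !b).imp fun z hz => ⟨hz.1, Iff.rfl⟩))
        (Rep.gand hS j1.not (Rep.and_or hS
          (Rep.gand hS j2 ((h4 b b).imp fun z hz => ⟨hz.1.1, Iff.rfl⟩))
          (Rep.gand hS j2.not ((h4 (!b) b).imp fun z hz =>
            ⟨hz.1.1, Iff.rfl⟩))).2)).2)).2.mono hS (by omega)).imp
      fun z hz => ⟨hz, (X.D z).C.val_iff _ h _ b⟩

theorem rep_out [Fintype ν] (hS : 2 ≤ S) (hν : Fintype.card ν ≤ S) (hW : (K + 3) * r ≤ W) (t : ℕ)
    (h2 : ∀ z, (X.D z).C.ok h₀ (t + 1) (X.D z).o) (b : Bool) : Rep W S (12 * h₀ + 2) (t + 1)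
      (fun _ => True) fun z => (X.D z).C.val (X.π z '' V) h₀ (X.D z).o ↔ b = true := by
  have j3 : ∀ u, Jun W fun z => X.π z u = (X.D z).o := fun u =>
    (X.jun_rel 3 u u).mono (le_trans (Nat.mul_le_mul_right _ (by omega)) hW)
  refine (Rep.ex hS hν fun u => Rep.gand hS (pm := fun _ => True) (j3 u)
    ((X.rep_val hM hp hV hS hν hW le_rfl t u b).imp fun z hz => ⟨hz.2 ▸ h2 z, Iff.rfl⟩)).imp
      fun z _ => ⟨trivial, fun a => ?_, fun ⟨u, a1, a2⟩ => a1 ▸ a2⟩
  obtain ⟨u, hu⟩ := X.surj z (X.D z).o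
  exact ⟨u, hu, hu ▸ a⟩

omit hM hp hV [Module (ZMod p) H] in
theorem ex_tup {z : β → Bool} {k : ℕ} (q : (X.D z).U → Prop) (Q : Set (X.D z).U → Prop) :
    (∃ T : Finset (X.D z).U, (T.card = k ∧ ∀ u ∈ T, q u) ∧ Q (X.π z '' V ∪ T)) ↔
      ∃ P : Fin k → ν, ((∀ i j, X.π z (P i) = X.π z (P j) → i = j) ∧ ∀ i, q (X.π z (P i))) ∧
        Q (X.π z '' (V ∪ univ.image P : Finset ν)) := by
  refine ⟨fun ⟨T, ⟨a1, a2⟩, a3⟩ => ?_, fun ⟨P, ⟨a1, a2⟩, a3⟩ =>
    ⟨univ.image fun i => X.π z (P i), ⟨?_, ?_⟩, ?_⟩⟩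
  · let e := T.equivFinOfCardEq a1
    choose P hP using fun i : Fin k => X.surj z (e.symm i)
    refine ⟨P, ⟨fun i j e' => e.symm.injective (Subtype.ext ?_), fun i => ?_⟩, ?_⟩
    · rwa [hP, hP] at e'
    · rw [hP]
      exact a2 _ (e.symm i).2
    · have : X.π z '' (univ.image P : Finset ν) = T := by
        ext y
        simp only [coe_image, coe_univ, Set.image_univ, Set.mem_image, Set.mem_range,
          exists_exists_eq_and, hP, SetLike.mem_coe]
        exact ⟨fun ⟨i, hi⟩ => hi ▸ (e.symm i).2, fun hy => ⟨e ⟨y, hy⟩, by simp⟩⟩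
      rwa [coe_union, Set.image_union, this]
  · rw [card_image_of_injective _ a1]
    simp
  · simpa using a2
  · rw [coe_union, Set.image_union] at a3
    convert a3 using 2
    ext y
    simp

omit hV in
theorem tgt [Fintype ν] (hS : 2 ≤ S) (hν : Fintype.card ν ≤ S) {k : ℕ}
    (hν' : Fintype.card ν ^ k ≤ S) (hW : (K + 3) * r ≤ W) (hW' : k * k * (2 * r) + k * (3 * r) ≤ W)
    (t : ℕ) (lev : ∀ z, (X.D z).U → ℕ) (h0 : ∀ u m, Jun r fun z => lev z (X.π z u) = m)
    (h1 : ∀ z, (X.D z).k = k) (h2 : ∀ z, (X.D z).C.ok h₀ (t + 1) (X.D z).o) (m : ℕ) (b : Bool)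
    (V : Finset ν) (hV : V.card + (m + 1) * k ≤ K) :
    Rep W S (12 * h₀ + 2 + 2 * (m + 1)) (t + m + 1) (fun _ => True)
      fun z => (X.D z).alt (lev z) h₀ (m + 1) b (X.π z '' V) ↔ b = true := by
  have step : ∀ m a d (b : Bool) (V : Finset ν),
      (∀ P : Fin k → ν, Rep W S a (d + 1) (fun _ => True) fun z => ¬ ((X.D z).alt (lev z) h₀ m (!b)
        (X.π z '' (V ∪ univ.image P : Finset ν)) ↔ (!b) = true)) →
      Rep W S (a + 2) (d + 1) (fun _ => True)
        fun z => (X.D z).alt (lev z) h₀ (m + 1) b (X.π z '' V) ↔ b = true := fun m a d b V h => by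
    refine (Rep.ex hS (ι := Fin k → ν) (by simpa using hν') fun P => Rep.gand hS
      (pm := fun _ => True) (c := fun z => (∀ i j, X.π z (P i) = X.π z (P j) → i = j) ∧
        ∀ i, (X.D z).C.inp (X.π z (P i)) ∧ lev z (X.π z (P i)) = m) ?_
      ((h P).imp fun z _ => ⟨trivial, Iff.rfl⟩)).imp fun z _ => ⟨trivial, ?_⟩
    · refine (Jun.two
        (Jun.of_det (univ : Finset (Fin k × Fin k)) (fun i _ => X.jun_rel 5 (P i.1) (P i.2))
          (f := fun z => ∀ i j, X.π z (P i) = X.π z (P j) → i = j)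
          fun x y a b i j e => b i j ((a (i, j) (mem_univ _)).2 e))
        (Jun.of_det (univ : Finset (Fin k)) (fun i _ => Jun.two (X.jun_rel 0 (P i) (P i))
          (h0 (P i) m) (k := fun z => (X.D z).C.inp (X.π z (P i)) ∧ lev z (X.π z (P i)) = m)
            fun x y a b c => ⟨a.1 c.1, b.1 c.2⟩)
          (f := fun z => ∀ i, (X.D z).C.inp (X.π z (P i)) ∧ lev z (X.π z (P i)) = m)
          fun x y a b i => (a i (mem_univ _)).1 (b i)) (by tauto)).mono ?_
      simp only [card_univ, Fintype.card_prod, Fintype.card_fin]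
      rwa [show 2 * r + r = 3 * r by ring]
    · rw [← X.ex_tup (fun u => (X.D z).C.inp u ∧ lev z u = m)
        fun Y => ¬ ((X.D z).alt (lev z) h₀ m (!b) Y ↔ (!b) = true), ← h1 z]
      cases b <;> simp [Inst.alt, and_assoc]
  have hc : ∀ (V : Finset ν) (P : Fin k → ν), (V ∪ univ.image P).card ≤ V.card + k := fun V P =>
    (card_union_le _ _).trans (Nat.add_le_add_left (card_image_le.trans (by simp)) _)
  induction m generalizing b V with
  | zero =>
    exact step 0 _ t b V fun P => (X.rep_out hM hp ((hc V P).trans (by omega)) hS hν hW t h2 b).imp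
      fun z _ => ⟨trivial, by cases b <;> simp [Inst.alt]⟩
  | succ m ih =>
    exact step (m + 1) _ _ b V fun P => (ih (!b) _ (by
      have := hc V P
      rw [add_mul (m + 1)] at hV
      omega)).neg hS

end Pool.Agent.P.MP_d1c5a4_lc.Sym.Sys
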